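import Pool.Agent.H.MP_21b43d_ag.StabDefs

/-! # M21 (MP_21b43d): A1 basic properties of HN filtrations -/

open CategoryTheory CategoryTheory.Limits CategoryTheory.Pretriangulated

universe v u w

namespace M21

variable {C : Type u} [Category.{v} C] [HasZeroObject C] [HasShift C ℤ] [Preadditive C]
  [∀ n : ℤ, (shiftFunctor C n).Additive] [Pretriangulated C]

/-- A1a. `HN P L` is invariant under isomorphisms (no assumption on `P` is needed for a nonempty
list: replace the triangle by an isomorphic one with second object `F`; for the empty list use that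
zero objects are invariant). Proof: case `zero`: trivial. Case `step`: the triangle
`(T.obj₁, F, T.obj₃, T.mor₁ ≫ e.hom, e.inv ≫ T.mor₂, T.mor₃)` is isomorphic to `T`
(`Triangle.isoMk`), hence distinguished (`isomorphic_distinguished`). -/
theorem HN.of_iso {P : ℝ → ObjectProperty C} {L : List ℝ} {E F : C} (h : HN P L E) (e : E ≅ F) :
    HN P L F := by
  cases h with
  | zero _ hE => exact HN.zero _ (hE.of_iso e.symm)
  | step φ L T hT hF hA hA0 hφ =>
    have hT' : Triangle.mk (T.mor₁ ≫ e.hom) (e.inv ≫ T.mor₂) T.mor₃ ∈ distTriang C := by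
      refine isomorphic_distinguished T hT _
        (Triangle.isoMk _ _ (Iso.refl _) e.symm (Iso.refl _) ?_ ?_ ?_)
      · show (T.mor₁ ≫ e.hom) ≫ e.inv = 𝟙 T.obj₁ ≫ T.mor₁
        rw [Category.assoc, e.hom_inv_id, Category.comp_id, Category.id_comp]
      · show (e.inv ≫ T.mor₂) ≫ 𝟙 T.obj₃ = e.inv ≫ T.mor₂
        rw [Category.comp_id]
      · show T.mor₃ ≫ (shiftFunctor C (1 : ℤ)).map (𝟙 T.obj₁) = 𝟙 T.obj₃ ≫ T.mor₃
        rw [CategoryTheory.Functor.map_id, Category.comp_id, Category.id_comp]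
    exact HN.step φ L _ hT' hF hA hA0 hφ

/-- A1b. `HN P [] E` iff `E` is a zero object. -/
theorem HN.nil_iff {P : ℝ → ObjectProperty C} {E : C} : HN P [] E ↔ IsZero E := by
  refine ⟨fun h => ?_, fun h => HN.zero _ h⟩
  cases h with
  | zero _ hE => exact hE

/-- A1c. If `HN P L E` and `E` is a zero object, all the `P φ` have the Hom-vanishing of a slicing,
then `L = []`.  Proof: use A1f: a nonempty list has a nonzero map `E → A`. We state it for slicings.
(May be proved after A1f.) A nonzero object `E` of `P φ` has the HN filtration `[φ]`: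
triangle `0 → E → E → 0[1]` (`contractible_distinguished₁`). -/
theorem Slicing.hn_single (σ : Slicing C) {φ : ℝ} {E : C} (h : σ.P φ E) (h0 : ¬ IsZero E) :
    HN σ.P [φ] E :=
  HN.step φ [] _ (contractible_distinguished₁ E) (HN.zero _ (isZero_zero C)) h h0 (by simp)

theorem Slicing.A1_hom_one (σ : Slicing C) {L : List ℝ} {ψ : ℝ} {E F : C} (hE : HN σ.P L E)
    (hF : σ.P ψ F) (hlt : ∀ a ∈ L, ψ < a) (f : E ⟶ F) : f = 0 := by
  induction hE with
  | zero E hE => exact hE.eq_of_src _ _
  | step φ L T hT hF' hA hA0 hφ ih =>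
    have h1 : T.mor₁ ≫ f = 0 := ih (fun a ha => hlt a (List.mem_cons_of_mem _ ha)) _
    obtain ⟨g, hg⟩ := Triangle.yoneda_exact₂ T hT f h1
    have h2 : g = 0 := σ.hom_zero φ ψ _ _ (hlt φ List.mem_cons_self) hA hF g
    rw [hg, h2, comp_zero]

/-- A1d. Hom vanishing: if all HN phases in `L` are larger than all those in `L'`, then every map
`E → F` is zero.  Proof: first `L = any`, `F ∈ P ψ`: induction on `HN P L E`: for the triangle
`F' → E → A →` a map `f : E → F` vanishes on `F'` (induction), so it factors through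
`A → F` (`Triangle.yoneda_exact₂`), which is zero by `hom_zero`. Then induction on the filtration
of the target: `G' → G → B →`: `E → G → B` is zero, so `E → G` factors through `G' → G`
(`Triangle.coyoneda_exact₂`), zero by induction. -/
theorem Slicing.hom_eq_zero (σ : Slicing C) {L L' : List ℝ} {E F : C} (hE : HN σ.P L E)
    (hF : HN σ.P L' F) (hlt : ∀ a ∈ L, ∀ b ∈ L', b < a) (f : E ⟶ F) : f = 0 := by
  induction hF with
  | zero F hF => exact hF.eq_of_tgt _ _
  | step φ L' T hT hF' hA hA0 hφ ih =>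
    have h1 : f ≫ T.mor₂ = 0 :=
      σ.A1_hom_one hE hA (fun a ha => hlt a ha φ List.mem_cons_self) _
    obtain ⟨g, hg⟩ := Triangle.coyoneda_exact₂ T hT f h1
    have h2 : g = 0 := ih (fun a ha b hb => hlt a ha b (List.mem_cons_of_mem _ hb)) g
    rw [hg, h2, zero_comp]

theorem Slicing.A1_P_iff (σ : Slicing C) {φ ψ : ℝ} {E F : C} (e : E ≅ F) (h : φ = ψ) :
    σ.P φ E ↔ σ.P ψ F := by
  subst h
  exact ⟨σ.iso_mem φ e, σ.iso_mem φ e.symm⟩

theorem Slicing.A1_shift (σ : Slicing C) (n : ℤ) (φ : ℝ) (E : C) :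
    σ.P (φ + n) (E⟦n⟧) ↔ σ.P φ E := by
  induction n using Int.induction_on with
  | zero =>
    exact σ.A1_P_iff ((shiftFunctorZero C ℤ).app E) (by simp)
  | succ n ih =>
    rw [← ih, ← σ.shift_iff (φ + (((n : ℕ) : ℤ) : ℝ))]
    exact σ.A1_P_iff ((shiftFunctorAdd' C (n : ℤ) 1 (n + 1) rfl).app E) (by push_cast; ring)
  | pred n ih =>
    rw [← ih, ← σ.shift_iff (φ + ((-(n : ℤ) - 1 : ℤ) : ℝ))]
    exact σ.A1_P_iff ((shiftFunctorAdd' C (-(n : ℤ) - 1) 1 (-(n : ℤ)) (by ring)).symm.app E)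
      (by push_cast; ring)

theorem A1_isZero_shift {E : C} (n : ℤ) : IsZero (E⟦n⟧) ↔ IsZero E := by
  refine ⟨fun h => ?_, fun h => (shiftFunctor C n).map_isZero h⟩
  rw [IsZero.iff_id_eq_zero] at h ⊢
  apply (shiftFunctor C n).map_injective
  rw [(shiftFunctor C n).map_id, Functor.map_zero]
  exact h

/-- A1e. Shift: `HN P L E` implies `HN P (L + n) (E[n])`.  Proof: for `n = 1` and `n = -1`, induction
on the filtration; the shifted triangle (`Triangle.shift_distinguished`, up to signs) is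
distinguished; `σ.shift_iff` for the factors; then induction on `n`. -/
theorem Slicing.hn_shift (σ : Slicing C) {L : List ℝ} {E : C} (hE : HN σ.P L E) (n : ℤ) :
    HN σ.P (L.map (fun φ => φ + n)) (E⟦n⟧) := by
  induction hE with
  | zero E hE => exact HN.zero _ ((A1_isZero_shift n).2 hE)
  | step φ L T hT hF hA hA0 hφ ih =>
    refine HN.step (φ + n) (L.map (fun φ => φ + n)) ((Triangle.shiftFunctor C n).obj T)
      (Triangle.shift_distinguished T hT n) ih ((σ.A1_shift n φ _).2 hA)
      (fun h => hA0 ((A1_isZero_shift n).1 h)) ?_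
    intro ψ hψ
    obtain ⟨χ, hχ, rfl⟩ := List.mem_map.1 hψ
    have := hφ χ hχ
    linarith

/-- A1e'. `P (φ + n) (E[n])` iff `P φ E`. -/
theorem Slicing.shift_iff' (σ : Slicing C) (φ : ℝ) (n : ℤ) (E : C) :
    σ.P (φ + n) (E⟦n⟧) ↔ σ.P φ E := σ.A1_shift n φ E

/-- A1f. The last factor is a nonzero quotient: if `T : F → E → A → F[1]` is a triangle with
`HN P L F`, `A ∈ P φ` nonzero and `φ < ψ` for `ψ ∈ L`, then `E → A` is not zero.
Proof: if `T.mor₂ = 0` then `A → F[1]` is a split mono (`T.mor₃` is mono, and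
`id_A` : by exactness `𝟙 A` composed ... ) i.e. `A` is a direct summand of `F[1]`: there is a
retraction `r : F[1] → A`; but the phases of `F[1]` are `> φ + 1 > φ`, so `r = 0` by A1d and A1e,
so `𝟙 A = 0`. -/
theorem Slicing.last_ne_zero (σ : Slicing C) {L : List ℝ} {φ : ℝ} (T : Triangle C)
    (hT : T ∈ distTriang C) (hF : HN σ.P L T.obj₁) (hA : σ.P φ T.obj₃) (hA0 : ¬ IsZero T.obj₃)
    (hφ : ∀ ψ ∈ L, φ < ψ) : T.mor₂ ≠ 0 := by
  intro h0
  obtain ⟨g, hg⟩ := Triangle.yoneda_exact₃ T hT (𝟙 T.obj₃) (by rw [h0, zero_comp])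
  have h1 : g = 0 := by
    refine σ.A1_hom_one (σ.hn_shift hF 1) hA ?_ g
    intro ψ hψ
    obtain ⟨χ, hχ, rfl⟩ := List.mem_map.1 hψ
    have := hφ χ hχ
    push_cast
    linarith
  rw [h1, comp_zero] at hg
  exact hA0 ((IsZero.iff_id_eq_zero _).2 hg)

end M21
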