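import Pool.Agent.H.MP_21b43d_ag.A1

/-! # M21 (MP_21b43d): A2a truncation triangles -/

open CategoryTheory CategoryTheory.Limits CategoryTheory.Pretriangulated
open scoped ZeroObject

universe v u w

namespace M21

variable {C : Type u} [Category.{v} C] [HasZeroObject C] [HasShift C ℤ] [Preadditive C]
  [∀ n : ℤ, (shiftFunctor C n).Additive] [Pretriangulated C] [IsTriangulated C]


/-- A2a. Extension on the low side: if `B' → B → A →` is a triangle with `HN P L B'`, `A ∈ P φ`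
nonzero and `φ < ψ` for all `ψ ∈ L`, then `HN P (φ :: L) B` (this is the constructor, restated for
three objects and morphisms). -/
theorem HN.cons {P : ℝ → ObjectProperty C} {L : List ℝ} {φ : ℝ} {B' B A : C} (f : B' ⟶ B)
    (g : B ⟶ A) (h : A ⟶ B'⟦(1 : ℤ)⟧) (hT : Triangle.mk f g h ∈ distTriang C) (hB : HN P L B')
    (hA : P φ A) (hA0 : ¬ IsZero A) (hφ : ∀ ψ ∈ L, φ < ψ) : HN P (φ :: L) B :=
  HN.step φ L (Triangle.mk f g h) hT hB hA hA0 hφ

/-- the octahedron for the composite `A → T.obj₁ → T.obj₂` -/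
theorem A2a_oct {A B : C} (T : Triangle C) (hT : T ∈ distTriang C) (f : A ⟶ T.obj₁)
    (g : T.obj₁ ⟶ B) (h : B ⟶ A⟦(1 : ℤ)⟧) (hf : Triangle.mk f g h ∈ distTriang C) :
    ∃ (Z : C) (v : T.obj₂ ⟶ Z) (w : Z ⟶ A⟦(1 : ℤ)⟧) (m₁ : B ⟶ Z) (m₃ : Z ⟶ T.obj₃)
      (k : T.obj₃ ⟶ B⟦(1 : ℤ)⟧), Triangle.mk (f ≫ T.mor₁) v w ∈ distTriang C ∧
        Triangle.mk m₁ m₃ k ∈ distTriang C := by
  obtain ⟨Z, v, w, hvw⟩ := distinguished_cocone_triangle (f ≫ T.mor₁)
  have hT' : Triangle.mk T.mor₁ T.mor₂ T.mor₃ ∈ distTriang C := hT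
  have o := Triangulated.someOctahedron (u₁₂ := f) (u₂₃ := T.mor₁) (u₁₃ := f ≫ T.mor₁) rfl hf hT' hvw
  exact ⟨Z, v, w, o.m₁, o.m₃, _, hvw, o.mem⟩

/-- A2b. TRUNCATION. If `HN P L E` then for every real `φ` there is a triangle `A → E → B → A[1]`
with `HN P L₁ A`, `HN P L₂ B`, `L₁` = the phases of `L` that are `> φ`, `L₂` = the phases of `L`
that are `≤ φ`.
Proof: induction on `HN P L E`. `L = []`: `E` is zero, take `A = E`, `B = 0`
(contractible triangle). `L = φ₀ :: L'`, triangle `F → E → A₀ →`: if `φ < φ₀` then all phases of `L`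
are `> φ`: take `A = E`, `B = 0`, `L₁ = L`, `L₂ = []`. If `φ₀ ≤ φ`: truncate `F`:
`A → F → B' →` with lists `L'.filter (φ < ·)` and `L'.filter (· ≤ φ)`. The composite `A → F → E`
has a cone `B` and the octahedral axiom (`Triangulated.someOctahedron`) gives a triangle
`B' → B → A₀ →`, so `HN P (φ₀ :: L'.filter (· ≤ φ)) B`. -/
theorem Slicing.exists_truncation (σ : Slicing C) {L : List ℝ} {E : C} (hE : HN σ.P L E) (φ : ℝ) :
    ∃ (A B : C) (f : A ⟶ E) (g : E ⟶ B) (h : B ⟶ A⟦(1 : ℤ)⟧),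
      Triangle.mk f g h ∈ distTriang C ∧ HN σ.P (L.filter (fun ψ => φ < ψ)) A ∧
        HN σ.P (L.filter (fun ψ => ψ ≤ φ)) B := by
  induction hE with
  | zero E hE =>
    exact ⟨E, 0, 𝟙 E, 0, 0, contractible_distinguished E, HN.zero E hE,
      HN.zero 0 (isZero_zero C)⟩
  | step φ₀ L' T hT hF hA hA0 hφ ih =>
    by_cases h0 : φ < φ₀
    · have h1 : (φ₀ :: L').filter (fun ψ => φ < ψ) = φ₀ :: L' := by
        rw [List.filter_eq_self]
        intro ψ hψ
        rw [decide_eq_true_iff]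
        rcases List.mem_cons.1 hψ with rfl | hψ
        · exact h0
        · exact h0.trans (hφ ψ hψ)
      have h2 : (φ₀ :: L').filter (fun ψ => ψ ≤ φ) = [] := by
        rw [List.filter_eq_nil_iff]
        intro ψ hψ
        rw [decide_eq_true_iff, not_le]
        rcases List.mem_cons.1 hψ with rfl | hψ
        · exact h0
        · exact h0.trans (hφ ψ hψ)
      rw [h1, h2]
      exact ⟨T.obj₂, 0, 𝟙 _, 0, 0, contractible_distinguished _,
        HN.step φ₀ L' T hT hF hA hA0 hφ, HN.zero 0 (isZero_zero C)⟩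
    · obtain ⟨A, B', f, g, h, hfgh, hA1, hB1⟩ := ih
      obtain ⟨Z, v, w, m₁, m₃, k, h1, h2⟩ := A2a_oct T hT f g h hfgh
      rw [not_lt] at h0
      have h3 : (φ₀ :: L').filter (fun ψ => φ < ψ) = L'.filter (fun ψ => φ < ψ) :=
        List.filter_cons_of_neg (by simpa using h0)
      have h4 : (φ₀ :: L').filter (fun ψ => ψ ≤ φ) = φ₀ :: L'.filter (fun ψ => ψ ≤ φ) :=
        List.filter_cons_of_pos (by simpa using h0)
      rw [h3, h4]
      refine ⟨A, Z, f ≫ T.mor₁, v, w, h1, hA1, HN.cons m₁ m₃ k h2 hB1 hA hA0 ?_⟩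
      intro ψ hψ
      exact hφ ψ (List.mem_filter.1 hψ).1

/-- A2c. TOP FACTOR. If `HN P L E` and `L ≠ []`, let `φ` be the last (= largest) element of `L`
and `L₀` the rest (`L = L₀ ++ [φ]`). Then there is a triangle `A → E → B →` with `A ∈ P φ`
nonzero and `HN P L₀ B`, all phases in `L₀` are `< φ`.
Proof: induction on `HN`, with the octahedral axiom as in A2b. -/
theorem Slicing.exists_top (σ : Slicing C) {L : List ℝ} {E : C} (hE : HN σ.P L E) (hL : L ≠ []) :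
    ∃ (φ : ℝ) (L₀ : List ℝ) (A B : C) (f : A ⟶ E) (g : E ⟶ B) (h : B ⟶ A⟦(1 : ℤ)⟧),
      Triangle.mk f g h ∈ distTriang C ∧ L = L₀ ++ [φ] ∧ σ.P φ A ∧ ¬ IsZero A ∧
        HN σ.P L₀ B ∧ ∀ ψ ∈ L₀, ψ < φ := by
  induction hE with
  | zero E hE => exact absurd rfl hL
  | step φ₀ L' T hT hF hA hA0 hφ ih =>
    by_cases hL' : L' = []
    · subst hL'
      have hz : IsZero T.obj₁ := HN.nil_iff.1 hF
      have hiso : IsIso T.mor₂ := (Triangle.isZero₁_iff_isIso₂ T hT).1 hz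
      have e : T.obj₂ ≅ T.obj₃ := asIso T.mor₂
      refine ⟨φ₀, [], T.obj₂, 0, 𝟙 _, 0, 0, contractible_distinguished _, rfl,
        σ.iso_mem φ₀ e.symm hA, fun h => hA0 (h.of_iso e.symm), HN.zero 0 (isZero_zero C), ?_⟩
      intro ψ hψ
      exact absurd hψ List.not_mem_nil
    · obtain ⟨φ, L₀, A, B, f, g, h, hfgh, hL₀, hAφ, hAn, hB, hlt⟩ := ih hL'
      obtain ⟨Z, v, w, m₁, m₃, k, h1, h2⟩ := A2a_oct T hT f g h hfgh
      refine ⟨φ, φ₀ :: L₀, A, Z, f ≫ T.mor₁, v, w, h1, ?_, hAφ, hAn,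
        HN.cons m₁ m₃ k h2 hB hA hA0 ?_, ?_⟩
      · rw [hL₀, List.cons_append]
      · intro ψ hψ
        exact hφ ψ (by rw [hL₀]; exact List.mem_append_left _ hψ)
      · intro ψ hψ
        rcases List.mem_cons.1 hψ with rfl | hψ
        · exact hφ φ (by rw [hL₀]; exact List.mem_append_right _ (List.mem_singleton.2 rfl))
        · exact hlt ψ hψ

end M21
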