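import Pool.Agent.H.MP_21b43d_ag.A2a

/-! # M21 (MP_21b43d): A2b characterisation of phases, extensions, retracts -/

open CategoryTheory CategoryTheory.Limits CategoryTheory.Pretriangulated

universe v u w

namespace M21

variable {C : Type u} [Category.{v} C] [HasZeroObject C] [HasShift C ℤ] [Preadditive C]
  [∀ n : ℤ, (shiftFunctor C n).Additive] [Pretriangulated C] [IsTriangulated C]

/-- A2d. The first map `A → E` of A2c is nonzero (if it were zero then `A` would be a direct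
summand of `B[-1]`, whose phases are `< φ - 1 < φ`, so `𝟙 A = 0` by A1d, A1e). -/
theorem Slicing.top_ne_zero (σ : Slicing C) {φ : ℝ} {L₀ : List ℝ} {A B E : C} (f : A ⟶ E)
    (g : E ⟶ B) (h : B ⟶ A⟦(1 : ℤ)⟧) (hT : Triangle.mk f g h ∈ distTriang C) (hA : σ.P φ A)
    (hA0 : ¬ IsZero A) (hB : HN σ.P L₀ B) (hφ : ∀ ψ ∈ L₀, ψ < φ) : f ≠ 0 := by
  intro hf
  have h1 : (𝟙 (A⟦(1 : ℤ)⟧)) ≫ f⟦(1 : ℤ)⟧' = 0 := by
    have h2 : f⟦(1 : ℤ)⟧' = 0 := by
      rw [hf]
      exact (shiftFunctor C (1 : ℤ)).map_zero A E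
    rw [h2, comp_zero]
  obtain ⟨k, hk⟩ := Triangle.coyoneda_exact₁ _ hT (𝟙 (A⟦(1 : ℤ)⟧)) h1
  have hA1 : σ.P (φ + 1) (A⟦(1 : ℤ)⟧) := (σ.shift_iff φ A).2 hA
  have hA10 : ¬ IsZero (A⟦(1 : ℤ)⟧) := by
    intro hz
    apply hA0
    rw [IsZero.iff_id_eq_zero] at hz ⊢
    apply (shiftFunctor C (1 : ℤ)).map_injective
    rw [(shiftFunctor C (1 : ℤ)).map_id, (shiftFunctor C (1 : ℤ)).map_zero]
    exact hz
  have hk0 : k = 0 := by
    refine σ.hom_eq_zero (σ.hn_single hA1 hA10) hB ?_ k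
    intro a ha b hb
    rw [List.mem_singleton] at ha
    have := hφ b hb
    linarith
  apply hA10
  rw [IsZero.iff_id_eq_zero, hk, hk0]
  exact zero_comp

/-- A2e. Characterisation of `GE`: if every map from `E` to every object of `P ψ`, `ψ < φ`, is
zero, then all phases in an HN list of `E` are `≥ φ`.
Proof: `L` is strictly increasing (`hφ` in the constructor), so it is enough that its head `φ₀` is
`≥ φ`; the last factor `E → A₀` is nonzero (A1f), `A₀ ∈ P φ₀`. -/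
theorem Slicing.phases_ge (σ : Slicing C) {L : List ℝ} {E : C} (hE : HN σ.P L E) (φ : ℝ)
    (h : ∀ ψ < φ, ∀ G : C, σ.P ψ G → ∀ f : E ⟶ G, f = 0) : ∀ ψ ∈ L, φ ≤ ψ := by
  cases hE with
  | zero _ _ =>
    intro ψ hψ
    exact absurd hψ (by simp)
  | step φ₀ L T hT hF hA hA0 hφ =>
    have h1 : φ ≤ φ₀ := by
      by_contra hcon
      exact σ.last_ne_zero T hT hF hA hA0 hφ (h φ₀ (not_le.1 hcon) _ hA T.mor₂)
    intro ψ hψ
    rw [List.mem_cons] at hψ
    rcases hψ with rfl | hψ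
    · exact h1
    · exact h1.trans (hφ ψ hψ).le

/-- A2f. Characterisation of `LE`: if every map from an object of `P ψ`, `ψ > φ`, to `E` is zero,
then all phases in an HN list of `E` are `≤ φ` (use A2c, A2d: the top factor maps nontrivially to
`E`). -/
theorem Slicing.phases_le (σ : Slicing C) {L : List ℝ} {E : C} (hE : HN σ.P L E) (φ : ℝ)
    (h : ∀ ψ : ℝ, φ < ψ → ∀ G : C, σ.P ψ G → ∀ f : G ⟶ E, f = 0) : ∀ ψ ∈ L, ψ ≤ φ := by
  by_cases hL : L = []
  · intro ψ hψ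
    rw [hL] at hψ
    exact absurd hψ (by simp)
  · obtain ⟨φ₀, L₀, A, B, f, g, k, hT, hL', hA, hA0, hB, hlt⟩ := σ.exists_top hE hL
    have h1 : φ₀ ≤ φ := by
      by_contra hcon
      exact σ.top_ne_zero f g k hT hA hA0 hB hlt (h φ₀ (not_le.1 hcon) A hA f)
    intro ψ hψ
    rw [hL', List.mem_append, List.mem_singleton] at hψ
    rcases hψ with hψ | rfl
    · exact (hlt ψ hψ).le.trans h1
    · exact h1

/-- A2g. If all phases of an HN list of `E` are equal to `φ` then `E ∈ P φ`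
(the list is strictly increasing, so it is `[]` or `[φ]`; in the first case `E` is zero; in the
second the subobject is zero, so `E → A` is an isomorphism). -/
theorem Slicing.mem_of_hn (σ : Slicing C) {L : List ℝ} {E : C} (hE : HN σ.P L E) (φ : ℝ)
    (h : ∀ ψ ∈ L, ψ = φ) : σ.P φ E := by
  cases hE with
  | zero _ hE => exact σ.zero_mem φ _ hE
  | step φ₀ L T hT hF hA hA0 hφ =>
    have h1 : φ₀ = φ := h φ₀ (by simp)
    have hL : L = [] := by
      cases L with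
      | nil => rfl
      | cons a L' =>
        have h2 := hφ a (by simp)
        have h3 := h a (by simp)
        linarith
    subst hL
    subst h1
    have hz : IsZero T.obj₁ := HN.nil_iff.1 hF
    have hiso : IsIso T.mor₂ := (T.isZero₁_iff_isIso₂ hT).1 hz
    exact σ.iso_mem _ (asIso T.mor₂).symm hA

/-- A2h. `P φ` is closed under extensions: by A2e, A2f, A2g (Hom-vanishing for `T.obj₂` follows
from that for `T.obj₁` and `T.obj₃` by the exact sequences). -/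
theorem Slicing.ext_mem (σ : Slicing C) {φ : ℝ} (T : Triangle C) (hT : T ∈ distTriang C)
    (h₁ : σ.P φ T.obj₁) (h₃ : σ.P φ T.obj₃) : σ.P φ T.obj₂ := by
  obtain ⟨L, hL⟩ := σ.hn T.obj₂
  refine σ.mem_of_hn hL φ fun ψ hψ => le_antisymm ?_ ?_
  · refine σ.phases_le hL φ (fun ψ' hψ' G hG f => ?_) ψ hψ
    obtain ⟨g, rfl⟩ := T.coyoneda_exact₂ hT f (σ.hom_zero ψ' φ _ _ hψ' hG h₃ _)
    rw [σ.hom_zero ψ' φ _ _ hψ' hG h₁ g, zero_comp]
  · refine σ.phases_ge hL φ (fun ψ' hψ' G hG f => ?_) ψ hψ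
    obtain ⟨g, rfl⟩ := T.yoneda_exact₂ hT f (σ.hom_zero φ ψ' _ _ hψ' h₁ hG _)
    rw [σ.hom_zero φ ψ' _ _ hψ' h₃ hG g, comp_zero]

/-- A2i. `P φ` is closed under retracts (Hom-vanishing passes to retracts; A2e, A2f, A2g). -/
theorem Slicing.retract_mem (σ : Slicing C) {φ : ℝ} {E F : C} (hF : σ.P φ F) (i : E ⟶ F)
    (r : F ⟶ E) (hir : i ≫ r = 𝟙 E) : σ.P φ E := by
  obtain ⟨L, hL⟩ := σ.hn E
  refine σ.mem_of_hn hL φ fun ψ hψ => le_antisymm ?_ ?_
  · refine σ.phases_le hL φ (fun ψ' hψ' G hG f => ?_) ψ hψ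
    have h1 : f ≫ i = 0 := σ.hom_zero ψ' φ _ _ hψ' hG hF _
    calc f = f ≫ (i ≫ r) := by rw [hir, Category.comp_id]
      _ = (f ≫ i) ≫ r := by rw [Category.assoc]
      _ = 0 := by rw [h1, zero_comp]
  · refine σ.phases_ge hL φ (fun ψ' hψ' G hG f => ?_) ψ hψ
    have h1 : r ≫ f = 0 := σ.hom_zero φ ψ' _ _ hψ' hF hG _
    calc f = (i ≫ r) ≫ f := by rw [hir, Category.id_comp]
      _ = i ≫ (r ≫ f) := by rw [Category.assoc]
      _ = 0 := by rw [h1, comp_zero]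

/-- A2j. There are no negative Ext groups in `P φ`, more generally `Hom(E, F[n]) = 0` if
`E ∈ P φ`, `F ∈ P ψ`, `ψ + n < φ`. -/
theorem Slicing.hom_shift_zero (σ : Slicing C) {φ ψ : ℝ} {E F : C} (hE : σ.P φ E) (hF : σ.P ψ F)
    (n : ℤ) (h : ψ + n < φ) (f : E ⟶ F⟦n⟧) : f = 0 := by
  exact σ.hom_zero φ (ψ + n) _ _ h hE ((σ.shift_iff' ψ n F).2 hF) f

end M21
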