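import Pool.Agent.H.MP_21b43d_ag.A2b

/-! # M21 (MP_21b43d): A3a the central charge along HN filtrations -/

open CategoryTheory CategoryTheory.Limits CategoryTheory.Pretriangulated

universe v u w

namespace M21

open ZeroObject

variable {C : Type u} [Category.{v} C] [HasZeroObject C] [HasShift C ℤ] [Preadditive C]
  [∀ n : ℤ, (shiftFunctor C n).Additive] [Pretriangulated C] [IsTriangulated C]

private theorem StabData.Z_iso_aux (σ : StabData C) {E F : C} (e : E ≅ F) :
    σ.Z F = σ.Z E + σ.Z (0 : C) := by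
  have h : Triangle.mk e.hom (0 : F ⟶ (0 : C)) 0 ∈ distTriang C := by
    refine isomorphic_distinguished _ (contractible_distinguished E) _ ?_
    refine Triangle.isoMk _ _ (Iso.refl E) e.symm (Iso.refl (0 : C)) ?_ ?_ ?_
    · change e.hom ≫ e.inv = 𝟙 E ≫ 𝟙 E
      simp
    · change (0 : F ⟶ (0 : C)) ≫ 𝟙 (0 : C) = e.inv ≫ (0 : E ⟶ (0 : C))
      simp
    · change (0 : (0 : C) ⟶ E⟦(1 : ℤ)⟧) ≫ (shiftFunctor C (1 : ℤ)).map (𝟙 E) =
        𝟙 (0 : C) ≫ (0 : (0 : C) ⟶ E⟦(1 : ℤ)⟧)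
      simp
  exact σ.Z_add _ h

private theorem StabData.Z_zero_aux (σ : StabData C) : σ.Z (0 : C) = 0 := by
  have h := σ.Z_iso_aux (Iso.refl (0 : C))
  linear_combination -h

/-- A3c''. -/
theorem StabData.Z_zero (σ : StabData C) {E : C} (h : IsZero E) : σ.Z E = 0 := by
  have h1 := σ.Z_iso_aux h.isoZero.symm
  rw [σ.Z_zero_aux] at h1
  simpa using h1

/-- A3c'. -/
theorem StabData.Z_iso (σ : StabData C) {E F : C} (e : E ≅ F) : σ.Z E = σ.Z F := by
  have h1 := σ.Z_iso_aux e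
  rw [σ.Z_zero_aux, add_zero] at h1
  exact h1.symm

/-- A3c. `Z (E[1]) = - Z E` (triangle `E → 0 → E[1]`, `Z 0 = 0`), `Z` is invariant under
isomorphisms, `Z E = 0` for zero objects. -/
theorem StabData.Z_shift (σ : StabData C) (E : C) : σ.Z (E⟦(1 : ℤ)⟧) = - σ.Z E := by
  have h := σ.Z_add _ (contractible_distinguished₂ E)
  have h' : σ.Z (0 : C) = σ.Z E + σ.Z (E⟦(1 : ℤ)⟧) := h
  rw [σ.Z_zero_aux] at h'
  linear_combination -h'

/-- A3a. `Z` is additive along an HN filtration: if `HN P L E` then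
`Z E = ∑ m_i exp(iπ φ_i)` with `m_i > 0`, `φ_i` running through `L`. -/
theorem StabData.Z_hn (σ : StabData C) {L : List ℝ} {E : C} (hE : HN σ.P L E) :
    ∃ m : List ℝ, m.length = L.length ∧ (∀ x ∈ m, 0 < x) ∧
      σ.Z E = (List.zipWith (fun (x φ : ℝ) => (x : ℂ) * Complex.exp (Real.pi * φ * Complex.I)) m
        L).sum := by
  induction hE with
  | zero E hE => exact ⟨[], rfl, by simp, by simpa using σ.Z_zero hE⟩
  | step φ L T hT hF hA hA0 hφ ih =>
    obtain ⟨m, h1, h2, h3⟩ := ih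
    obtain ⟨m0, h4, h5⟩ := σ.Z_phase φ _ hA hA0
    refine ⟨m0 :: m, by simp [h1], ?_, ?_⟩
    · intro x hx
      rcases List.mem_cons.1 hx with rfl | hx
      · exact h4
      · exact h2 x hx
    · rw [σ.Z_add T hT, h3, h5, List.zipWith_cons_cons, List.sum_cons, add_comm]

private theorem im_term (x ψ φ : ℝ) :
    (((x : ℂ) * Complex.exp (Real.pi * ψ * Complex.I)) *
      Complex.exp (-(Real.pi * φ * Complex.I))).im = x * Real.sin (Real.pi * (ψ - φ)) := by
  rw [mul_assoc, ← Complex.exp_add]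
  have h : (Real.pi : ℂ) * ψ * Complex.I + -(Real.pi * φ * Complex.I) =
      ((Real.pi * (ψ - φ) : ℝ) : ℂ) * Complex.I := by
    push_cast
    ring
  rw [h, Complex.im_ofReal_mul, Complex.exp_ofReal_mul_I_im]

private theorem im_sum (φ : ℝ) (L : List ℝ) : ∀ (m : List ℝ), m.length = L.length →
    (∀ x ∈ m, 0 < x) → (∀ ψ ∈ L, φ - 1 < ψ ∧ ψ ≤ φ) →
    ((List.zipWith (fun (x φ : ℝ) => (x : ℂ) * Complex.exp (Real.pi * φ * Complex.I)) m
        L).sum * Complex.exp (-(Real.pi * φ * Complex.I))).im ≤ 0 ∧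
    (((List.zipWith (fun (x φ : ℝ) => (x : ℂ) * Complex.exp (Real.pi * φ * Complex.I)) m
        L).sum * Complex.exp (-(Real.pi * φ * Complex.I))).im = 0 → ∀ ψ ∈ L, ψ = φ) := by
  induction L with
  | nil => intro m hm _ _; simp
  | cons ψ L ih =>
    intro m hm hpos hL
    cases m with
    | nil => simp at hm
    | cons x m =>
      have hx : 0 < x := hpos x (List.mem_cons_self ..)
      have hψ := hL ψ (List.mem_cons_self ..)
      obtain ⟨h1, h2⟩ := ih m (by simpa using hm)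
        (fun y hy => hpos y (List.mem_cons_of_mem _ hy))
        (fun y hy => hL y (List.mem_cons_of_mem _ hy))
      rw [List.zipWith_cons_cons, List.sum_cons, add_mul, Complex.add_im, im_term]
      have hs : Real.sin (Real.pi * (ψ - φ)) ≤ 0 := by
        apply Real.sin_nonpos_of_nonpos_of_neg_pi_le
        · exact mul_nonpos_of_nonneg_of_nonpos Real.pi_pos.le (by linarith)
        · nlinarith [Real.pi_pos]
      have hs0 : Real.sin (Real.pi * (ψ - φ)) = 0 → ψ = φ := by
        intro h0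
        by_contra hne
        have hlt : ψ < φ := lt_of_le_of_ne hψ.2 hne
        have := Real.sin_neg_of_neg_of_neg_pi_lt (x := Real.pi * (ψ - φ))
          (mul_neg_of_pos_of_neg Real.pi_pos (by linarith)) (by nlinarith [Real.pi_pos])
        linarith
      have hxs : x * Real.sin (Real.pi * (ψ - φ)) ≤ 0 :=
        mul_nonpos_of_nonneg_of_nonpos hx.le hs
      refine ⟨by linarith, fun h0 => ?_⟩
      have e1 : x * Real.sin (Real.pi * (ψ - φ)) = 0 := by linarith
      have e2 := h2 (by linarith)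
      intro y hy
      rcases List.mem_cons.1 hy with rfl | hy
      · exact hs0 ((mul_eq_zero.1 e1).resolve_left hx.ne')
      · exact e2 y hy

/-- A3b. If all phases of `E` lie in `(φ - 1, φ]` and `Z E` lies on the real line spanned by
`exp(iπφ)`, then `E ∈ P φ`.
Proof: `Im (exp(-iπφ) Z E) = ∑ m_i sin(π(φ_i - φ))` and every term is `≤ 0`, with equality iff
`φ_i = φ`; the sum is `0`, so all `φ_i = φ` (A2g). -/
theorem StabData.mem_of_Z (σ : StabData C) {L : List ℝ} {E : C} (hE : HN σ.P L E) (φ : ℝ)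
    (h : ∀ ψ ∈ L, φ - 1 < ψ ∧ ψ ≤ φ)
    (hZ : ∃ r : ℝ, σ.Z E = (r : ℂ) * Complex.exp (Real.pi * φ * Complex.I)) : σ.P φ E := by
  obtain ⟨m, h1, h2, h3⟩ := σ.Z_hn hE
  obtain ⟨r, hr⟩ := hZ
  refine σ.mem_of_hn hE φ ((im_sum φ L m h1 h2 h).2 ?_)
  rw [← h3, hr, im_term]
  simp

end M21
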