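import Pool.Agent.H.MP_21b43d_ag.A3a

/-! # M21 (MP_21b43d): A3b admissibility and image factorisation in P phi -/

open CategoryTheory CategoryTheory.Limits CategoryTheory.Pretriangulated

universe v u w

namespace M21

variable {C : Type u} [Category.{v} C] [HasZeroObject C] [HasShift C ℤ] [Preadditive C]
  [∀ n : ℤ, (shiftFunctor C n).Additive] [Pretriangulated C] [IsTriangulated C]

omit [IsTriangulated C] in
/-- Two signs in a distinguished triangle cancel. -/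
theorem A3b_neg {X Y Z : C} (u : X ⟶ Y) (v : Y ⟶ Z) (w : Z ⟶ X⟦(1 : ℤ)⟧)
    (h : Triangle.mk (-u) (-v) w ∈ distTriang C) : Triangle.mk u v w ∈ distTriang C := by
  let e : Y ≅ Y := ⟨-𝟙 Y, -𝟙 Y, by simp, by simp⟩
  refine isomorphic_distinguished _ h _ ?_
  refine Triangle.isoMk _ _ (Iso.refl X) e (Iso.refl Z) ?_ ?_ ?_
  · show u ≫ (-𝟙 Y) = 𝟙 X ≫ (-u)
    simp
  · show v ≫ 𝟙 Z = (-𝟙 Y) ≫ (-v)
    simp
  · show w ≫ (𝟙 X)⟦(1 : ℤ)⟧' = 𝟙 Z ≫ w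
    simp

/-- The central charge of an object of `P φ` is on the line of `exp(iπφ)`. -/
theorem A3b_line (σ : StabData C) {φ : ℝ} {E : C} (hE : σ.P φ E) :
    ∃ r : ℝ, σ.Z E = (r : ℂ) * Complex.exp (Real.pi * φ * Complex.I) := by
  by_cases h0 : IsZero E
  · exact ⟨0, by rw [σ.Z_zero h0]; simp⟩
  · obtain ⟨m, _, hm⟩ := σ.Z_phase φ E hE h0
    exact ⟨m, hm⟩

/-- A3d. ADMISSIBILITY. Let `f : E → F` be a morphism between objects of `P φ` and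
`E → F → W → E[1]` a triangle. Then there are `K, Q ∈ P φ` and a triangle `K[1] → W → Q →`. -/
theorem StabData.admissible (σ : StabData C) {φ : ℝ} {E F W : C} (hE : σ.P φ E) (hF : σ.P φ F)
    (f : E ⟶ F) (g : F ⟶ W) (h : W ⟶ E⟦(1 : ℤ)⟧) (hT : Triangle.mk f g h ∈ distTriang C) :
    ∃ (K Q : C) (a : K⟦(1 : ℤ)⟧ ⟶ W) (b : W ⟶ Q) (c : Q ⟶ K⟦(1 : ℤ)⟧⟦(1 : ℤ)⟧),
      σ.P φ K ∧ σ.P φ Q ∧ Triangle.mk a b c ∈ distTriang C := by
  obtain ⟨L, hL⟩ := σ.hn W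
  have hE1 : σ.P (φ + 1) (E⟦(1 : ℤ)⟧) := (σ.shift_iff φ E).2 hE
  have hge : ∀ ψ ∈ L, φ ≤ ψ := by
    refine σ.toSlicing.phases_ge hL φ fun ψ hψ G hG u => ?_
    have h1 : g ≫ u = 0 := σ.hom_zero φ ψ F G hψ hF hG _
    obtain ⟨u', hu'⟩ := Triangle.yoneda_exact₃ _ hT u h1
    have h2 : u' = 0 := σ.hom_zero (φ + 1) ψ _ G (by linarith) hE1 hG u'
    rw [hu', h2]
    exact comp_zero
  have hle : ∀ ψ ∈ L, ψ ≤ φ + 1 := by
    refine σ.toSlicing.phases_le hL (φ + 1) fun ψ hψ G hG u => ?_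
    have h1 : u ≫ h = 0 := σ.hom_zero ψ (φ + 1) G _ hψ hG hE1 _
    obtain ⟨u', hu'⟩ := Triangle.coyoneda_exact₃ _ hT u h1
    have h2 : u' = 0 := σ.hom_zero ψ φ G F (by linarith) hG hF u'
    rw [hu', h2]
    exact zero_comp
  obtain ⟨A, Q, a', b, c', hT', hA, hQ⟩ := σ.toSlicing.exists_truncation hL φ
  have hQP : σ.P φ Q := by
    refine σ.toSlicing.mem_of_hn hQ φ fun ψ hψ => ?_
    rw [List.mem_filter] at hψ
    exact le_antisymm (by simpa using hψ.2) (hge ψ hψ.1)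
  have hK := σ.toSlicing.hn_shift hA (-1)
  let e : (A⟦(-1 : ℤ)⟧)⟦(1 : ℤ)⟧ ≅ A :=
    (shiftFunctorCompIsoId C (-1 : ℤ) 1 (by norm_num)).app A
  have hZ1 : σ.Z F = σ.Z E + σ.Z W := σ.Z_add _ hT
  have hZ2 : σ.Z W = σ.Z A + σ.Z Q := σ.Z_add _ hT'
  have hZ3 : σ.Z (A⟦(-1 : ℤ)⟧⟦(1 : ℤ)⟧) = -σ.Z (A⟦(-1 : ℤ)⟧) := σ.Z_shift _
  have hZ4 : σ.Z (A⟦(-1 : ℤ)⟧⟦(1 : ℤ)⟧) = σ.Z A := σ.Z_iso e
  obtain ⟨rE, hrE⟩ := A3b_line σ hE
  obtain ⟨rF, hrF⟩ := A3b_line σ hF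
  obtain ⟨rQ, hrQ⟩ := A3b_line σ hQP
  have hKP : σ.P φ (A⟦(-1 : ℤ)⟧) := by
    refine σ.mem_of_Z hK φ (fun ψ hψ => ?_) ⟨rQ - rF + rE, ?_⟩
    · obtain ⟨ψ', hψ', rfl⟩ := List.mem_map.1 hψ
      rw [List.mem_filter] at hψ'
      have h1 : φ < ψ' := by simpa using hψ'.2
      have h2 := hle ψ' hψ'.1
      push_cast
      constructor <;> linarith
    · have h1 : σ.Z (A⟦(-1 : ℤ)⟧) = σ.Z Q - σ.Z F + σ.Z E := by
        rw [hZ1, hZ2, ← hZ4, hZ3]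
        ring
      rw [h1, hrE, hrF, hrQ]
      push_cast
      ring
  refine ⟨A⟦(-1 : ℤ)⟧, Q, e.hom ≫ a', b, c' ≫ e.inv⟦(1 : ℤ)⟧', hKP, hQP, ?_⟩
  refine isomorphic_distinguished _ hT' _ ?_
  refine Triangle.isoMk _ _ e (Iso.refl _) (Iso.refl _) ?_ ?_ ?_
  · exact Category.comp_id _
  · exact (Category.comp_id _).trans (Category.id_comp _).symm
  · show (c' ≫ e.inv⟦(1 : ℤ)⟧') ≫ e.hom⟦(1 : ℤ)⟧' = 𝟙 _ ≫ c'
    rw [Category.assoc, ← CategoryTheory.Functor.map_comp, e.inv_hom_id, CategoryTheory.Functor.map_id, Category.comp_id,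
      Category.id_comp]

/-- A3d2. IMAGE FACTORISATION. Every `f : E → F` between objects of `P φ` factors as
`E →(p) I →(i) F` with triangles `K → E →(p) I →` and `I →(i) F → Q →` and `K, I, Q ∈ P φ`. -/
theorem StabData.image_factorisation (σ : StabData C) {φ : ℝ} {E F : C} (hE : σ.P φ E)
    (hF : σ.P φ F) (f : E ⟶ F) :
    ∃ (K I Q : C) (k : K ⟶ E) (p : E ⟶ I) (d : I ⟶ K⟦(1 : ℤ)⟧) (i : I ⟶ F) (q : F ⟶ Q)
      (e : Q ⟶ I⟦(1 : ℤ)⟧), σ.P φ K ∧ σ.P φ I ∧ σ.P φ Q ∧ Triangle.mk k p d ∈ distTriang C ∧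
        Triangle.mk i q e ∈ distTriang C ∧ p ≫ i = f := by
  obtain ⟨W, g, h, hT⟩ := distinguished_cocone_triangle f
  obtain ⟨K, Q, a, b, c, hK, hQ, hT'⟩ := σ.admissible hE hF f g h hT
  obtain ⟨k, hk⟩ := (shiftFunctor C (1 : ℤ)).map_surjective (a ≫ h)
  obtain ⟨I, p, d, hkpd⟩ := distinguished_cocone_triangle k
  -- the three triangles of the octahedron
  have h23 : Triangle.mk h (-f⟦(1 : ℤ)⟧') (-g⟦(1 : ℤ)⟧') ∈ distTriang C :=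
    rot_of_distTriang _ (rot_of_distTriang _ hT)
  have h13 : Triangle.mk (k⟦(1 : ℤ)⟧') (p⟦(1 : ℤ)⟧') (-d⟦(1 : ℤ)⟧') ∈ distTriang C :=
    A3b_neg _ _ _ (rot_of_distTriang _ (rot_of_distTriang _ (rot_of_distTriang _ hkpd)))
  have o := Triangulated.someOctahedron hk.symm hT' h23 h13
  obtain ⟨i', hi'⟩ := (shiftFunctor C (1 : ℤ)).map_surjective o.m₃
  have hpi : p ≫ (-i') = f := by
    apply (shiftFunctor C (1 : ℤ)).map_injective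
    rw [Functor.map_comp, Functor.map_neg, hi', Preadditive.comp_neg, o.comm₃, neg_neg]
  have hT2 : Triangle.mk (-i') (g ≫ b) o.m₁ ∈ distTriang C := by
    rw [rotate_distinguished_triangle, rotate_distinguished_triangle]
    have h1 := o.mem
    have h2 : Triangle.mk o.m₁ o.m₃ ((-g⟦(1 : ℤ)⟧') ≫ b⟦(1 : ℤ)⟧') =
        (Triangle.mk (-i') (g ≫ b) o.m₁).rotate.rotate := by
      show Triangle.mk o.m₁ o.m₃ ((-g⟦(1 : ℤ)⟧') ≫ b⟦(1 : ℤ)⟧') =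
        Triangle.mk o.m₁ (-(-i')⟦(1 : ℤ)⟧') (-(g ≫ b)⟦(1 : ℤ)⟧')
      rw [Functor.map_neg, hi', neg_neg, Functor.map_comp, Preadditive.neg_comp]
    rw [← h2]
    exact h1
  have hK1 : σ.P (φ + 1) (K⟦(1 : ℤ)⟧) := (σ.shift_iff φ K).2 hK
  have hI : σ.P φ I := by
    obtain ⟨L, hL⟩ := σ.hn I
    have hge : ∀ ψ ∈ L, φ ≤ ψ := by
      refine σ.toSlicing.phases_ge hL φ fun ψ hψ G hG u => ?_
      have h1 : p ≫ u = 0 := σ.hom_zero φ ψ E G hψ hE hG _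
      obtain ⟨u', hu'⟩ := Triangle.yoneda_exact₃ _ hkpd u h1
      have h2 : u' = 0 := σ.hom_zero (φ + 1) ψ _ G (by linarith) hK1 hG u'
      rw [hu', h2]
      exact comp_zero
    have hle : ∀ ψ ∈ L, ψ ≤ φ := by
      refine σ.toSlicing.phases_le hL φ fun ψ hψ G hG u => ?_
      have h1 : u ≫ (-i') = 0 := σ.hom_zero ψ φ G F hψ hG hF _
      have h3 : u⟦(1 : ℤ)⟧' ≫ (-i')⟦(1 : ℤ)⟧' = 0 := by
        rw [← Functor.map_comp, h1, Functor.map_zero]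
      obtain ⟨u', hu'⟩ := Triangle.coyoneda_exact₁ _ hT2 (u⟦(1 : ℤ)⟧') h3
      have h2 : u' = 0 :=
        σ.hom_zero (ψ + 1) φ _ Q (by linarith) ((σ.shift_iff ψ G).2 hG) hQ u'
      apply (shiftFunctor C (1 : ℤ)).map_injective
      refine hu'.trans ?_
      rw [h2, Functor.map_zero]
      exact zero_comp
    exact σ.toSlicing.mem_of_hn hL φ fun ψ hψ => le_antisymm (hle ψ hψ) (hge ψ hψ)
  exact ⟨K, I, Q, k, p, d, -i', g ≫ b, o.m₁, hK, hI, hQ, hkpd, hT2, hpi⟩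

end M21
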