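import Pool.Agent.H.MP_21b43d_ag.A3b

/-! # M21 (MP_21b43d): A3c stable objects, Schur lemma -/

open CategoryTheory CategoryTheory.Limits CategoryTheory.Pretriangulated

universe v u w

namespace M21

variable {C : Type u} [Category.{v} C] [HasZeroObject C] [HasShift C ℤ] [Preadditive C]
  [∀ n : ℤ, (shiftFunctor C n).Additive] [Pretriangulated C] [IsTriangulated C]

/-- A3e. A nonzero map from a stable object of phase `φ` to an object of `P φ` is a strict
monomorphism: its cone is in `P φ`.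
Proof. Take `K, I, Q` from A3d2 for `f : T → E`. `T` is stable: `K = 0` or `I = 0`. If `I = 0` then
`f = p ≫ i = 0`, a contradiction. So `K = 0`, `p` is an isomorphism, and the triangle
`I → E → Q →` is isomorphic to one on `f`, so `W ≅ Q ∈ P φ`. -/
theorem StabData.cone_mem_of_stable (σ : StabData C) {φ : ℝ} {T E W : C}
    (hT : σ.Stable φ T) (hE : σ.P φ E) (f : T ⟶ E) (hf : f ≠ 0) (g : E ⟶ W)
    (h : W ⟶ T⟦(1 : ℤ)⟧) (hW : Triangle.mk f g h ∈ distTriang C) : σ.P φ W := by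
  obtain ⟨K, I, Q, k, p, d, i, q, e, hK, hI, hQ, h1, h2, hfac⟩ :=
    σ.image_factorisation hT.1 hE f
  have hI0 : ¬ IsZero I := by
    intro h0
    apply hf
    rw [← hfac, h0.eq_of_tgt p 0, zero_comp]
  have hK0 : IsZero K := (hT.2.2 (Triangle.mk k p d) h1 rfl hK hI).resolve_right hI0
  have hp : IsIso p := (Triangle.isZero₁_iff_isIso₂ _ h1).1 hK0
  let e1 : T ≅ I := @asIso C _ T I p hp
  have hc : f ≫ (Iso.refl E).hom = e1.hom ≫ i := by
    change f ≫ 𝟙 E = p ≫ i
    rw [Category.comp_id, hfac]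
  let E1 : Triangle.mk f g h ≅ Triangle.mk i q e :=
    isoTriangleOfIso₁₂ _ _ hW h2 e1 (Iso.refl E) hc
  exact σ.iso_mem φ (Triangle.π₃.mapIso E1).symm hQ

/-- A3f. Dually, a nonzero map `f : E → T` from an object of `P φ` to a stable object of phase
`φ` has its fibre in `P φ`: for a triangle `K → E → T →`, `K ∈ P φ`.
Proof: A3d2 for `f : E → T`: triangles `K' → E → I →`, `I → T → Q →`. `T` stable: `I = 0` (then
`f = 0`, contradiction) or `Q = 0`. So `i : I → T` is an isomorphism and `K ≅ K' ∈ P φ`. -/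
theorem StabData.fibre_mem_of_stable (σ : StabData C) {φ : ℝ} {K E T : C}
    (hT : σ.Stable φ T) (hE : σ.P φ E) (k : K ⟶ E) (f : E ⟶ T) (hf : f ≠ 0)
    (h : T ⟶ K⟦(1 : ℤ)⟧) (hK : Triangle.mk k f h ∈ distTriang C) : σ.P φ K := by
  obtain ⟨K', I, Q, k', p, d, i, q, e, hK', hI, hQ, h1, h2, hfac⟩ :=
    σ.image_factorisation hE hT.1 f
  have hI0 : ¬ IsZero I := by
    intro h0
    apply hf
    rw [← hfac, h0.eq_of_tgt p 0, zero_comp]
  have hQ0 : IsZero Q := (hT.2.2 (Triangle.mk i q e) h2 rfl hI hQ).resolve_left hI0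
  have hi : IsIso i := (Triangle.isZero₃_iff_isIso₁ _ h2).1 hQ0
  let e1 : I ≅ T := @asIso C _ I T i hi
  have hc : p ≫ e1.hom = (Iso.refl E).hom ≫ f := by
    change p ≫ i = 𝟙 E ≫ f
    rw [Category.id_comp, hfac]
  let E1 : (Triangle.mk k' p d).rotate ≅ (Triangle.mk k f h).rotate :=
    isoTriangleOfIso₁₂ _ _ (rot_of_distTriang _ h1) (rot_of_distTriang _ hK)
      (Iso.refl E) e1 hc
  exact (σ.shift_iff φ K).1
    (σ.iso_mem (φ + 1) (Triangle.π₃.mapIso E1) ((σ.shift_iff φ K').2 hK'))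

/-- A3g. SCHUR. A nonzero map between stable objects of the same phase is an isomorphism
(A3d2: `K = 0` or `I = 0`, and `I = 0` or `Q = 0`; `I = 0` is impossible, so `p` and `i` are
isomorphisms). -/
theorem StabData.schur (σ : StabData C) {φ : ℝ} {T T' : C} (hT : σ.Stable φ T)
    (hT' : σ.Stable φ T') (f : T ⟶ T') (hf : f ≠ 0) : IsIso f := by
  obtain ⟨K, I, Q, k, p, d, i, q, e, hK, hI, hQ, h1, h2, hfac⟩ :=
    σ.image_factorisation hT.1 hT'.1 f
  have hI0 : ¬ IsZero I := by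
    intro h0
    apply hf
    rw [← hfac, h0.eq_of_tgt p 0, zero_comp]
  have hK0 : IsZero K := (hT.2.2 (Triangle.mk k p d) h1 rfl hK hI).resolve_right hI0
  have hQ0 : IsZero Q := (hT'.2.2 (Triangle.mk i q e) h2 rfl hI hQ).resolve_left hI0
  have hp : IsIso p := (Triangle.isZero₁_iff_isIso₂ _ h1).1 hK0
  have hi : IsIso i := (Triangle.isZero₃_iff_isIso₁ _ h2).1 hQ0
  rw [← hfac]
  exact @IsIso.comp_isIso C _ T I T' p i hp hi

end M21
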