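import Pool.Agent.H.MP_21b43d_ag.A3c

/-! # M21 (MP_21b43d): A4a isotypic objects -/

open CategoryTheory CategoryTheory.Limits CategoryTheory.Pretriangulated

universe v u w

namespace M21

variable {C : Type u} [Category.{v} C] [HasZeroObject C] [HasShift C ℤ] [Preadditive C]
  [∀ n : ℤ, (shiftFunctor C n).Additive] [Pretriangulated C] [IsTriangulated C]

/-- `Isotypic T A`: `A` is a finite iterated extension of copies of `T`. -/
inductive Isotypic (T : C) : C → Prop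
  | zero (A : C) (h : IsZero A) : Isotypic T A
  | step (D : Triangle C) (hD : D ∈ distTriang C) (h₁ : Isotypic T D.obj₁)
      (h₃ : Nonempty (D.obj₃ ≅ T)) : Isotypic T D.obj₂

/-- A4d'. -/
theorem Isotypic.of_iso {T A B : C} (h : Isotypic T A) (e : A ≅ B) : Isotypic T B := by
  cases h with
  | zero _ h => exact Isotypic.zero B (h.of_iso e.symm)
  | step D hD h₁ h₃ =>
    have hD' : Triangle.mk (D.mor₁ ≫ e.hom) (e.inv ≫ D.mor₂) D.mor₃ ∈ distTriang C := by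
      refine isomorphic_distinguished D hD _ ?_
      refine Triangle.isoMk _ _ (Iso.refl D.obj₁) e.symm (Iso.refl D.obj₃) ?_ ?_ ?_
      · change (D.mor₁ ≫ e.hom) ≫ e.inv = 𝟙 D.obj₁ ≫ D.mor₁
        simp
      · change (e.inv ≫ D.mor₂) ≫ 𝟙 D.obj₃ = e.inv ≫ D.mor₂
        simp
      · change D.mor₃ ≫ (𝟙 D.obj₁)⟦(1 : ℤ)⟧' = 𝟙 D.obj₃ ≫ D.mor₃
        simp
    exact Isotypic.step _ hD' h₁ h₃

private theorem A4a_ext_aux {T A₃ : C} (h : Isotypic T A₃) :
    ∀ D : Triangle C, D ∈ distTriang C → Isotypic T D.obj₁ → Nonempty (D.obj₃ ≅ A₃) →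
      Isotypic T D.obj₂ := by
  induction h with
  | zero A h =>
    rintro D hD h₁ ⟨e⟩
    have h0 : IsZero D.obj₃ := h.of_iso e
    have : IsIso D.mor₁ := (Triangle.isZero₃_iff_isIso₁ D hD).1 h0
    exact h₁.of_iso (asIso D.mor₁)
  | step E hE hE₁ hE₃ ih =>
    rintro D hD h₁ ⟨e⟩
    -- replace the third object by `E.obj₂`
    have hD2 : Triangle.mk D.mor₁ (D.mor₂ ≫ e.hom) (e.inv ≫ D.mor₃) ∈ distTriang C := by
      refine isomorphic_distinguished D hD _ ?_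
      refine Triangle.isoMk _ _ (Iso.refl D.obj₁) (Iso.refl D.obj₂) e.symm ?_ ?_ ?_
      · change D.mor₁ ≫ 𝟙 D.obj₂ = 𝟙 D.obj₁ ≫ D.mor₁
        simp
      · change (D.mor₂ ≫ e.hom) ≫ e.inv = 𝟙 D.obj₂ ≫ D.mor₂
        simp
      · change (e.inv ≫ D.mor₃) ≫ (𝟙 D.obj₁)⟦(1 : ℤ)⟧' = e.inv ≫ D.mor₃
        simp
    have h12 := rot_of_distTriang _ hD2
    have h23 := rot_of_distTriang _ hE
    obtain ⟨Z, g, k, h13⟩ := distinguished_cocone_triangle ((D.mor₂ ≫ e.hom) ≫ E.mor₂)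
    have o := Triangulated.someOctahedron (u₁₂ := D.mor₂ ≫ e.hom) (u₂₃ := E.mor₂) rfl h12 h23 h13
    have h5 := Triangle.shift_distinguished _ o.mem (-1)
    have h6 : Isotypic T (Z⟦(-1 : ℤ)⟧) := by
      refine ih _ h5 ?_ ⟨?_⟩
      · exact h₁.of_iso ((shiftEquiv C (1 : ℤ)).unitIso.app D.obj₁)
      · exact ((shiftEquiv C (1 : ℤ)).unitIso.app E.obj₁).symm
    exact Isotypic.step (Triangle.mk ((D.mor₂ ≫ e.hom) ≫ E.mor₂) g k).invRotate
      (inv_rot_of_distTriang _ h13) h6 hE₃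

/-- A4d. Extensions of isotypic objects are isotypic: if `D` is a triangle with `D.obj₁`, `D.obj₃`
`T`-isotypic then so is `D.obj₂`. Proof: induction on the filtration of `D.obj₃`, octahedral axiom
(`A₁ → A → A₃`, `A₃' → A₃ → T`: the fibre `A'` of `A → A₃ → T` is an extension of `A₃'` by `A₁`).
Also `Isotypic T` is invariant under isomorphisms. -/
theorem Isotypic.ext {T : C} (D : Triangle C) (hD : D ∈ distTriang C)
    (h₁ : Isotypic T D.obj₁) (h₃ : Isotypic T D.obj₃) : Isotypic T D.obj₂ :=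
  A4a_ext_aux h₃ D hD h₁ ⟨Iso.refl _⟩

/-- A4e. If `A` is `T`-isotypic and `Hom(T, B[i]) = 0` for all `i ≤ 0` then `Hom(A, B[i]) = 0` for all
`i ≤ 0` (exact sequences, induction on the filtration). -/
theorem Isotypic.hom_zero {T A B : C} (h : Isotypic T A)
    (hB : ∀ i : ℤ, i ≤ 0 → ∀ f : T ⟶ B⟦i⟧, f = 0) :
    ∀ i : ℤ, i ≤ 0 → ∀ f : A ⟶ B⟦i⟧, f = 0 := by
  induction h with
  | zero A h => intro i _ f; exact h.eq_of_src _ _
  | step D hD h₁ h₃ ih =>
    intro i hi f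
    obtain ⟨g, rfl⟩ := Triangle.yoneda_exact₂ D hD f (ih i hi _)
    obtain ⟨e⟩ := h₃
    have h0 : e.inv ≫ g = 0 := hB i hi _
    have h1 : g = 0 := by
      rw [← cancel_epi e.inv, h0, comp_zero]
    rw [h1, comp_zero]

end M21
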