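import Pool.Agent.H.MP_21b43d_ag.A4a

/-! # M21 (MP_21b43d): A4b stable subobjects, isotypic subobjects -/

open CategoryTheory CategoryTheory.Limits CategoryTheory.Pretriangulated
open scoped ZeroObject

universe v u w

namespace M21

variable {C : Type u} [Category.{v} C] [HasZeroObject C] [HasShift C ℤ] [Preadditive C]
  [∀ n : ℤ, (shiftFunctor C n).Additive] [Pretriangulated C] [IsTriangulated C]

/-- (aux) objects of `P φ` have `Z` a nonnegative multiple of `exp(iπφ)`. -/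
private theorem a4b_Z_mem (σ : StabData C) {φ : ℝ} {E : C} (hE : σ.P φ E) :
    σ.Z E = ((‖σ.Z E‖ : ℝ) : ℂ) * Complex.exp (Real.pi * φ * Complex.I) := by
  by_cases h0 : IsZero E
  · simp [σ.Z_zero h0]
  · obtain ⟨m, hm, hZ⟩ := σ.Z_phase φ E hE h0
    have hn : ‖Complex.exp (Real.pi * φ * Complex.I)‖ = 1 := by
      have := Complex.norm_exp_ofReal_mul_I (Real.pi * φ)
      simpa using this
    have : ‖σ.Z E‖ = m := by
      rw [hZ, norm_mul, hn, mul_one, Complex.norm_real, Real.norm_eq_abs, abs_of_pos hm]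
    rw [this]
    exact hZ

/-- (aux) `T`-isotypic objects are in `P φ` if `T` is. -/
private theorem a4b_isotypic_mem (σ : StabData C) {φ : ℝ} {T A : C} (hT : σ.P φ T)
    (hA : Isotypic T A) : σ.P φ A := by
  induction hA with
  | zero A h => exact σ.zero_mem φ A h
  | step D hD h₁ h₃ ih =>
    obtain ⟨e⟩ := h₃
    exact σ.toSlicing.ext_mem D hD ih (σ.iso_mem φ e.symm hT)

/-- (aux) `T` is `T`-isotypic. -/
private theorem a4b_isotypic_self (T : C) : Isotypic T T :=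
  Isotypic.step (Triangle.mk (0 : (0 : C) ⟶ T) (𝟙 T) 0) (contractible_distinguished₁ T)
    (Isotypic.zero _ (isZero_zero C)) ⟨Iso.refl T⟩

/-- (aux) `Hom (E[1], F) = 0` for `E, F ∈ P φ`. -/
private theorem a4b_hom_shift_one (σ : StabData C) {φ : ℝ} {E F : C} (hE : σ.P φ E)
    (hF : σ.P φ F) (f : E⟦(1 : ℤ)⟧ ⟶ F) : f = 0 :=
  σ.hom_zero (φ + 1) φ _ _ (by linarith) ((σ.shift_iff φ E).2 hE) hF f

/-- (aux) if `T → E → B →` is a triangle with `T, B ∈ P φ`, `T` nonzero, then `T → E` is not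
zero. -/
private theorem a4b_mor₁_ne_zero (σ : StabData C) {φ : ℝ} (D : Triangle C)
    (hD : D ∈ distTriang C) (h₁ : σ.P φ D.obj₁) (h₃ : σ.P φ D.obj₃) (h0 : ¬ IsZero D.obj₁) :
    D.mor₁ ≠ 0 := by
  intro hz
  obtain ⟨g, hg⟩ := D.coyoneda_exact₁ hD (𝟙 (D.obj₁⟦(1 : ℤ)⟧)) (by rw [hz]; simp)
  have hg0 : g = 0 := a4b_hom_shift_one σ h₁ h₃ g
  rw [hg0, zero_comp] at hg
  have hs : IsZero (D.obj₁⟦(1 : ℤ)⟧) := (IsZero.iff_id_eq_zero _).2 hg
  apply h0
  have : IsZero ((D.obj₁⟦(1 : ℤ)⟧)⟦(-1 : ℤ)⟧) := (shiftFunctor C (-1 : ℤ)).map_isZero hs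
  exact this.of_iso (shiftShiftNeg D.obj₁ (1 : ℤ)).symm

/-- (aux) dually, if `A → E → T →` is a triangle with `A, T ∈ P φ`, `T` nonzero, then `E → T` is
not zero. -/
private theorem a4b_mor₂_ne_zero (σ : StabData C) {φ : ℝ} (D : Triangle C)
    (hD : D ∈ distTriang C) (h₁ : σ.P φ D.obj₁) (h₃ : σ.P φ D.obj₃) (h0 : ¬ IsZero D.obj₃) :
    D.mor₂ ≠ 0 := by
  intro hz
  obtain ⟨g, hg⟩ := D.yoneda_exact₃ hD (𝟙 D.obj₃) (by rw [hz]; simp)
  have hg0 : g = 0 := a4b_hom_shift_one σ h₁ h₃ g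
  rw [hg0, comp_zero] at hg
  exact h0 ((IsZero.iff_id_eq_zero _).2 hg)

/-- A4a. Norms add up: if `A → E → B →` is a triangle with `A, B ∈ P φ` then
`‖Z E‖ = ‖Z A‖ + ‖Z B‖` (all values are nonnegative multiples of `exp(iπφ)`). In particular, if `A`
(resp. `B`) is nonzero then `‖Z B‖ ≤ ‖Z E‖ - ε` (resp. `‖Z A‖ ≤ ‖Z E‖ - ε`). -/
theorem StabData.norm_Z_add (σ : StabData C) {φ : ℝ} (D : Triangle C) (hD : D ∈ distTriang C)
    (h₁ : σ.P φ D.obj₁) (h₃ : σ.P φ D.obj₃) : ‖σ.Z D.obj₂‖ = ‖σ.Z D.obj₁‖ + ‖σ.Z D.obj₃‖ := by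
  have hn : ‖Complex.exp (Real.pi * φ * Complex.I)‖ = 1 := by
    have := Complex.norm_exp_ofReal_mul_I (Real.pi * φ)
    simpa using this
  have h := σ.Z_add D hD
  rw [a4b_Z_mem σ h₁, a4b_Z_mem σ h₃, ← add_mul, ← Complex.ofReal_add] at h
  rw [h, norm_mul, hn, mul_one, Complex.norm_real, Real.norm_eq_abs,
    abs_of_nonneg (add_nonneg (norm_nonneg _) (norm_nonneg _))]

/-- A4b. Every nonzero `E ∈ P φ` has a stable subobject: a triangle `T → E → B →` with `T` stable of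
phase `φ`, `B ∈ P φ`.
Proof: strong induction on the natural number `⌊‖Z E‖ / ε⌋`. If `E` is stable take `T = E`, `B = 0`.
Otherwise there is a triangle `A → E → B₁ →` in `P φ` with `A, B₁` nonzero; `‖Z A‖ ≤ ‖Z E‖ - ε`, so by
induction there is `T → A → B₂ →`; the cone `B` of `T → A → E` is an extension of `B₁` by `B₂`
(octahedral axiom: triangle `B₂ → B → B₁ →`), so `B ∈ P φ` (A2h). -/
theorem StabData.exists_stable_sub (σ : StabData C) {φ : ℝ} {E : C} (hE : σ.P φ E)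
    (h0 : ¬ IsZero E) :
    ∃ (T B : C) (f : T ⟶ E) (g : E ⟶ B) (h : B ⟶ T⟦(1 : ℤ)⟧), σ.Stable φ T ∧ σ.P φ B ∧
      Triangle.mk f g h ∈ distTriang C ∧ f ≠ 0 := by
  have key : ∀ n : ℕ, ∀ E : C, σ.P φ E → ¬ IsZero E → ‖σ.Z E‖ ≤ n * σ.ε →
      ∃ (T B : C) (f : T ⟶ E) (g : E ⟶ B) (h : B ⟶ T⟦(1 : ℤ)⟧), σ.Stable φ T ∧ σ.P φ B ∧
        Triangle.mk f g h ∈ distTriang C ∧ f ≠ 0 := by
    intro n
    induction n with
    | zero =>
      intro E hE h0 hn
      exfalso
      have h1 := σ.ε_le φ E hE h0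
      have h2 := σ.ε_pos
      simp only [Nat.cast_zero, zero_mul] at hn
      linarith
    | succ n ih =>
      intro E hE h0 hn
      by_cases hst : σ.Stable φ E
      · refine ⟨E, 0, 𝟙 E, 0, 0, hst, σ.zero_mem φ _ (isZero_zero C),
          contractible_distinguished E, ?_⟩
        intro h
        exact h0 ((IsZero.iff_id_eq_zero _).2 h)
      · have hns : ∃ D ∈ distTriang C, D.obj₂ = E ∧ σ.P φ D.obj₁ ∧ σ.P φ D.obj₃ ∧
            ¬ IsZero D.obj₁ ∧ ¬ IsZero D.obj₃ := by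
          by_contra hcon
          apply hst
          refine ⟨hE, h0, ?_⟩
          intro D hD hDE h₁ h₃
          by_contra hor
          rw [not_or] at hor
          exact hcon ⟨D, hD, hDE, h₁, h₃, hor.1, hor.2⟩
        obtain ⟨D, hD, hDE, h₁, h₃, hz₁, hz₃⟩ := hns
        subst hDE
        have hadd := σ.norm_Z_add D hD h₁ h₃
        have hε := σ.ε_le φ D.obj₃ h₃ hz₃
        have hle : ‖σ.Z D.obj₁‖ ≤ n * σ.ε := by
          push_cast at hn
          linarith
        obtain ⟨T, B₂, f, g, h, hT, hB₂, hmem, -⟩ := ih D.obj₁ h₁ hz₁ hle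
        obtain ⟨B, g', h', hmem'⟩ := distinguished_cocone_triangle (f ≫ D.mor₁)
        have o := Triangulated.someOctahedron (rfl : f ≫ D.mor₁ = f ≫ D.mor₁) hmem
          (show Triangle.mk D.mor₁ D.mor₂ D.mor₃ ∈ distTriang C from hD) hmem'
        have hB : σ.P φ B := σ.toSlicing.ext_mem _ o.mem hB₂ h₃
        exact ⟨T, B, _, g', h', hT, hB, hmem',
          a4b_mor₁_ne_zero σ _ hmem' hT.1 hB hT.2.1⟩
  obtain ⟨n, hn⟩ := exists_nat_ge (‖σ.Z E‖ / σ.ε)
  exact key n E hE h0 ((div_le_iff₀ σ.ε_pos).1 hn)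

/-- A4c. ISOTYPIC SUBOBJECT. Let `E ∈ P φ`, `T` stable of phase `φ`. There is a triangle
`A → E → B →` with `A, B ∈ P φ`, `A` `T`-isotypic, and `Hom(T, B) = 0`; if there is a nonzero map
`T → E` then `A` is nonzero.
Proof: strong induction on `⌊‖Z E‖ / ε⌋`, for all `E`. If every map `T → E` is zero take `A = 0`,
`B = E`. Otherwise take a nonzero map `T → E` and its cone `W` (`W ∈ P φ` by A3e, and
`‖Z W‖ ≤ ‖Z E‖ - ε`); by induction there is `A' → W → B →` with `A'` isotypic and `Hom(T, B) = 0`.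
Let `A` be the fibre of `E → W → B`: the octahedral axiom gives a triangle `T → A → A' →`.
So `A ∈ P φ` and `A` is isotypic: one needs that an extension of the isotypic `A'` by `T` on the left
is isotypic (A4d). `A` is nonzero because `T → A → E` is the nonzero map `T → E`. -/
theorem StabData.exists_isotypic (σ : StabData C) {φ : ℝ} {E T : C} (hE : σ.P φ E)
    (hT : σ.Stable φ T) :
    ∃ (A B : C) (f : A ⟶ E) (g : E ⟶ B) (h : B ⟶ A⟦(1 : ℤ)⟧), σ.P φ A ∧ σ.P φ B ∧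
      Isotypic T A ∧ Triangle.mk f g h ∈ distTriang C ∧ (∀ t : T ⟶ B, t = 0) ∧
        ((∃ t : T ⟶ E, t ≠ 0) → ¬ IsZero A) := by
  have key : ∀ n : ℕ, ∀ E : C, σ.P φ E → ‖σ.Z E‖ ≤ n * σ.ε →
      ∃ (A B : C) (f : A ⟶ E) (g : E ⟶ B) (h : B ⟶ A⟦(1 : ℤ)⟧), σ.P φ A ∧ σ.P φ B ∧
      Isotypic T A ∧ Triangle.mk f g h ∈ distTriang C ∧ (∀ t : T ⟶ B, t = 0) ∧
        ((∃ t : T ⟶ E, t ≠ 0) → ¬ IsZero A) := by
    intro n
    induction n with
    | zero =>
      intro E hE hn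
      have hz : IsZero E := by
        by_contra h0
        have h1 := σ.ε_le φ E hE h0
        have h2 := σ.ε_pos
        simp only [Nat.cast_zero, zero_mul] at hn
        linarith
      refine ⟨0, E, 0, 𝟙 E, 0, σ.zero_mem φ _ (isZero_zero C), hE,
        Isotypic.zero _ (isZero_zero C), contractible_distinguished₁ E,
        fun t => hz.eq_of_tgt _ _, ?_⟩
      rintro ⟨t, ht⟩
      exact absurd (hz.eq_of_tgt _ _) ht
    | succ n ih =>
      intro E hE hn
      by_cases hall : ∀ t : T ⟶ E, t = 0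
      · refine ⟨0, E, 0, 𝟙 E, 0, σ.zero_mem φ _ (isZero_zero C), hE,
          Isotypic.zero _ (isZero_zero C), contractible_distinguished₁ E, hall, ?_⟩
        rintro ⟨t, ht⟩
        exact absurd (hall t) ht
      · rw [not_forall] at hall
        obtain ⟨t, ht⟩ := hall
        obtain ⟨W, u, w, hW⟩ := distinguished_cocone_triangle t
        have hWP : σ.P φ W := σ.cone_mem_of_stable hT hE t ht u w hW
        have hadd := σ.norm_Z_add _ hW hT.1 hWP
        simp only [Triangle.mk_obj₁, Triangle.mk_obj₂, Triangle.mk_obj₃] at hadd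
        have hε := σ.ε_le φ T hT.1 hT.2.1
        have hle : ‖σ.Z W‖ ≤ n * σ.ε := by
          push_cast at hn
          linarith
        obtain ⟨A', B, f', g', h', hA'P, hBP, hA'iso, hmem, hB0, -⟩ := ih W hWP hle
        obtain ⟨A, a, b, hA⟩ := distinguished_cocone_triangle₁ (u ≫ g')
        have o := Triangulated.someOctahedron' (rfl : u ≫ g' = u ≫ g') hW hmem hA
        have hiso : Isotypic T A := Isotypic.ext _ o.mem (a4b_isotypic_self T) hA'iso
        have hAP : σ.P φ A := a4b_isotypic_mem σ hT.1 hiso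
        refine ⟨A, B, a, u ≫ g', b, hAP, hBP, hiso, hA, hB0, ?_⟩
        rintro - hAz
        have h1 := σ.norm_Z_add _ o.mem hT.1 hA'P
        simp only [Triangle.mk_obj₁, Triangle.mk_obj₂, Triangle.mk_obj₃] at h1
        rw [σ.Z_zero hAz, norm_zero] at h1
        have h2 := σ.ε_pos
        have h3 := norm_nonneg (σ.Z A')
        linarith
  obtain ⟨n, hn⟩ := exists_nat_ge (‖σ.Z E‖ / σ.ε)
  exact key n E hE ((div_le_iff₀ σ.ε_pos).1 hn)

/-- A4f. A nonzero `T`-isotypic object of `P φ`, `T` stable of phase `φ`, has a nonzero map to `T`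
(the last step `A → T` of a filtration with minimal number of steps: if `A' → A → T →` is a triangle
with `A' ` isotypic and `A → T` zero, then `T → A'[1]` is a split mono, `A'[1]` has phases `φ + 1`,
`Hom(A'[1], T) = 0` so `𝟙 T = 0`, contradiction). -/
theorem StabData.isotypic_map_ne_zero (σ : StabData C) {φ : ℝ} {T A : C} (hT : σ.Stable φ T)
    (hA : Isotypic T A) (h0 : ¬ IsZero A) : ∃ f : A ⟶ T, f ≠ 0 := by
  cases hA with
  | zero A h => exact absurd h h0
  | step D hD h₁ h₃ =>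
    obtain ⟨e⟩ := h₃
    have h₁P : σ.P φ D.obj₁ := a4b_isotypic_mem σ hT.1 h₁
    have h₃P : σ.P φ D.obj₃ := σ.iso_mem φ e.symm hT.1
    have h₃0 : ¬ IsZero D.obj₃ := fun h => hT.2.1 (h.of_iso e.symm)
    have hne := a4b_mor₂_ne_zero σ D hD h₁P h₃P h₃0
    refine ⟨D.mor₂ ≫ e.hom, fun h => hne ?_⟩
    rw [← cancel_mono e.hom, h, zero_comp]

end M21
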