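import Pool.Agent.H.MP_21b43d_ag.A4b

/-! # M21 (MP_21b43d): A4c the criterion for stability -/

open CategoryTheory CategoryTheory.Limits CategoryTheory.Pretriangulated

universe v u w

namespace M21

variable {C : Type u} [Category.{v} C] [HasZeroObject C] [HasShift C ℤ] [Preadditive C]
  [∀ n : ℤ, (shiftFunctor C n).Additive] [Pretriangulated C] [IsTriangulated C]

omit [IsTriangulated C] in
/-- Stability is invariant under isomorphisms. -/
theorem A4c_stable_of_iso (σ : StabData C) {φ : ℝ} {T O : C} (hT : σ.Stable φ T) (e : T ≅ O) :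
    σ.Stable φ O := by
  refine ⟨σ.iso_mem φ e hT.1, fun h => hT.2.1 (h.of_iso e), ?_⟩
  intro D hD hD2 h₁ h₃
  subst hD2
  refine hT.2.2 (Triangle.mk (D.mor₁ ≫ e.inv) (e.hom ≫ D.mor₂) D.mor₃) ?_ rfl h₁ h₃
  refine isomorphic_distinguished _ hD _ ?_
  refine Triangle.isoMk _ _ (Iso.refl D.obj₁) e (Iso.refl D.obj₃) ?_ ?_ ?_
  · change (D.mor₁ ≫ e.inv) ≫ e.hom = 𝟙 D.obj₁ ≫ D.mor₁
    simp
  · change (e.hom ≫ D.mor₂) ≫ 𝟙 D.obj₃ = e.hom ≫ D.mor₂
    simp
  · change D.mor₃ ≫ (shiftFunctor C (1 : ℤ)).map (𝟙 D.obj₁) = 𝟙 D.obj₃ ≫ D.mor₃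
    simp

/-- CRITERION FOR STABILITY. Let `O` be a nonzero object such that every nonzero endomorphism
of `O` is an isomorphism and such that for every triangle `A → O → B →` with `Hom(A, B[i]) = 0` for
all `i ≤ 0` one has `A = 0` or `B = 0`. Then `O` is stable of some phase. -/
theorem StabData.stable_of_criterion (σ : StabData C) (O : C) (hO : ¬ IsZero O)
    (hend : ∀ f : O ⟶ O, f ≠ 0 → IsIso f)
    (hcrit : ∀ D ∈ distTriang C, D.obj₂ = O →
      (∀ i : ℤ, i ≤ 0 → ∀ f : D.obj₁ ⟶ D.obj₃⟦i⟧, f = 0) → IsZero D.obj₁ ∨ IsZero D.obj₃) :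
    ∃ φ : ℝ, σ.Stable φ O := by
  -- step 1: `O` is semistable
  obtain ⟨L, hL⟩ := σ.hn O
  have hL0 : L ≠ [] := by
    rintro rfl
    exact hO (HN.nil_iff.1 hL)
  obtain ⟨φ, L₀, A, B, f, g, h, hT, -, hA, hA0, hB, hlt⟩ := σ.exists_top hL hL0
  have hPO : σ.P φ O := by
    rcases hcrit _ hT rfl (fun i hi t => by
      refine σ.hom_eq_zero (σ.hn_single hA hA0) (σ.hn_shift hB i) ?_ t
      intro a ha b hb
      rw [List.mem_singleton] at ha
      obtain ⟨ψ, hψ, rfl⟩ := List.mem_map.1 hb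
      have h1 := hlt ψ hψ
      have h2 : (i : ℝ) ≤ 0 := by exact_mod_cast hi
      rw [ha]
      linarith) with h0 | h0
    · exact absurd h0 hA0
    · have : IsIso (Triangle.mk f g h).mor₁ := (Triangle.isZero₃_iff_isIso₁ _ hT).1 h0
      have : IsIso f := this
      exact σ.iso_mem φ (asIso f) hA
  refine ⟨φ, ?_⟩
  -- step 2: `O` is isotypic
  obtain ⟨T, B₁, f₁, g₁, h₁, hTs, hB₁, hD₁, hf₁⟩ := σ.exists_stable_sub hPO hO
  obtain ⟨A', B', f', g', h', hA', hB', hiso, hD', hTB, hne⟩ := σ.exists_isotypic hPO hTs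
  have hA'0 : ¬ IsZero A' := hne ⟨f₁, hf₁⟩
  have hif' : IsIso f' := by
    rcases hcrit _ hD' rfl (Isotypic.hom_zero hiso (fun i hi t => by
      rcases eq_or_lt_of_le hi with rfl | hi
      · have h1 : ∀ t : T ⟶ B'⟦(0 : ℤ)⟧, t = 0 := by
          intro t
          have h1 := hTB (t ≫ (shiftFunctorZero C ℤ).hom.app B')
          rw [← cancel_mono ((shiftFunctorZero C ℤ).hom.app B'), zero_comp]
          exact h1
        exact h1 t
      · refine σ.hom_shift_zero hTs.1 hB' i ?_ t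
        have h2 : (i : ℝ) < 0 := by exact_mod_cast hi
        linarith)) with h0 | h0
    · exact absurd h0 hA'0
    · exact (Triangle.isZero₃_iff_isIso₁ _ hD').1 h0
  -- step 3: the nonzero map back
  obtain ⟨u, hu⟩ := σ.isotypic_map_ne_zero hTs hiso hA'0
  have hv : inv f' ≫ u ≠ 0 := by
    intro h0
    apply hu
    have := congrArg (fun z => f' ≫ z) h0
    simpa using this
  set v : O ⟶ T := inv f' ≫ u with hvdef
  have hc : v ≫ f₁ ≠ 0 := by
    intro h0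
    have h1 : v⟦(1 : ℤ)⟧' ≫ (Triangle.mk f₁ g₁ h₁).mor₁⟦(1 : ℤ)⟧' = 0 := by
      change v⟦(1 : ℤ)⟧' ≫ f₁⟦(1 : ℤ)⟧' = 0
      rw [← Functor.map_comp, h0, Functor.map_zero]
    obtain ⟨w, hw⟩ := Triangle.coyoneda_exact₁ (Triangle.mk f₁ g₁ h₁) hD₁ (v⟦(1 : ℤ)⟧') h1
    have h2 : w = 0 :=
      σ.hom_zero (φ + 1) φ _ _ (by linarith) ((σ.shift_iff φ O).2 hPO) hB₁ w
    rw [h2, zero_comp] at hw
    apply hv
    apply (shiftFunctor C (1 : ℤ)).map_injective
    rw [Functor.map_zero]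
    exact hw
  have hciso : IsIso (v ≫ f₁) := hend _ hc
  set s : O ⟶ T := inv (v ≫ f₁) ≫ v with hs
  have hsf : s ≫ f₁ = 𝟙 O := by
    rw [hs, Category.assoc, IsIso.inv_hom_id]
  have hfs : f₁ ≫ s ≠ 0 := by
    intro h0
    apply hO
    rw [IsZero.iff_id_eq_zero]
    have h1 : s ≫ f₁ ≫ s ≫ f₁ = 𝟙 O := by
      rw [hsf, Category.comp_id, hsf]
    rw [← h1, ← Category.assoc f₁ s f₁, h0, zero_comp, comp_zero]
  have hfsiso : IsIso (f₁ ≫ s) := σ.schur hTs hTs _ hfs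
  have hid : f₁ ≫ s = 𝟙 T := by
    rw [← cancel_mono (f₁ ≫ s), Category.id_comp, Category.assoc, ← Category.assoc s f₁ s, hsf,
      Category.id_comp]
  exact A4c_stable_of_iso σ hTs ⟨f₁, s, hid, hsf⟩

end M21
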