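import Pool.Agent.H.MP_21b43d_ag.A4b

/-! # M21 (MP_21b43d): A5a finitely many stable quotients -/

open CategoryTheory CategoryTheory.Limits CategoryTheory.Pretriangulated

universe v u w

namespace M21

variable {C : Type u} [Category.{v} C] [HasZeroObject C] [HasShift C ℤ] [Preadditive C]
  [∀ n : ℤ, (shiftFunctor C n).Additive] [Pretriangulated C] [IsTriangulated C]

/-- Shifts of zero objects. -/
theorem A5a_isZero_of_shift {E : C} (n : ℤ) (h : IsZero (E⟦n⟧)) : IsZero E :=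
  IsZero.of_iso ((shiftFunctor C (-n)).map_isZero h) (shiftShiftNeg E n).symm

/-- Stability allows to replace the middle object of the triangle by an isomorphic one. -/
theorem A5a_stable_iso (σ : Slicing C) {φ : ℝ} {T : C} (hT : σ.Stable φ T) (D : Triangle C)
    (hD : D ∈ distTriang C) (e : D.obj₂ ≅ T) (h₁ : σ.P φ D.obj₁) (h₃ : σ.P φ D.obj₃) :
    IsZero D.obj₁ ∨ IsZero D.obj₃ := by
  refine hT.2.2 (Triangle.mk (D.mor₁ ≫ e.hom) (e.inv ≫ D.mor₂) D.mor₃) ?_ rfl h₁ h₃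
  refine isomorphic_distinguished _ hD _ ?_
  refine Triangle.isoMk _ _ (Iso.refl _) e.symm (Iso.refl _) ?_ ?_ ?_
  · show (D.mor₁ ≫ e.hom) ≫ e.inv = 𝟙 D.obj₁ ≫ D.mor₁
    simp
  · show (e.inv ≫ D.mor₂) ≫ 𝟙 D.obj₃ = e.inv ≫ D.mor₂
    simp
  · show D.mor₃ ≫ (𝟙 D.obj₁)⟦(1 : ℤ)⟧' = 𝟙 D.obj₃ ≫ D.mor₃
    simp

/-- A5d. Stability and shifts: `Stable φ T` implies `Stable (φ + n) (T[n])`. -/
theorem StabData.stable_shift (σ : StabData C) {φ : ℝ} {T : C} (hT : σ.Stable φ T) (n : ℤ) :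
    σ.Stable (φ + n) (T⟦n⟧) := by
  refine ⟨(σ.shift_iff' φ n T).2 hT.1, fun h => hT.2.1 (A5a_isZero_of_shift n h), ?_⟩
  intro D hD hD2 h₁ h₃
  have hD' := Triangle.shift_distinguished D hD (-n)
  have hP : ∀ E : C, σ.P (φ + n) E → σ.P φ (E⟦-n⟧) := by
    intro E hE
    refine (σ.shift_iff' φ n (E⟦-n⟧)).1 ?_
    exact σ.iso_mem _ (shiftNegShift E n).symm hE
  have e : D.obj₂⟦-n⟧ ≅ T := by
    rw [hD2]
    exact shiftShiftNeg T n
  rcases A5a_stable_iso σ.toSlicing hT _ hD' e (hP _ h₁) (hP _ h₃) with h | h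
  · exact Or.inl (A5a_isZero_of_shift (-n) h)
  · exact Or.inr (A5a_isZero_of_shift (-n) h)

theorem A5a_finite {ι : Type w} (i₀ : ι) (h : Finite {i : ι // i ≠ i₀}) : Finite ι := by
  classical
  rw [← Set.finite_univ_iff]
  have h1 : {i : ι | i ≠ i₀}.Finite := Set.finite_coe_iff.1 h
  have h2 : (Set.univ : Set ι) = insert i₀ {i : ι | i ≠ i₀} := by
    ext i
    by_cases hi : i = i₀ <;> simp [hi]
  rw [h2]
  exact h1.insert i₀

theorem A5a_quot (σ : StabData C) (N : ℕ) : ∀ {φ : ℝ} {A : C}, σ.P φ A → ∀ {ι : Type w}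
    (T : ι → C), (∀ i, σ.Stable φ (T i)) → (∀ i j, i ≠ j → ¬ Nonempty (T i ≅ T j)) →
    (∀ i, ∃ f : A ⟶ T i, f ≠ 0) → ‖σ.Z A‖ < N * σ.ε → Finite ι := by
  induction N with
  | zero =>
    intro φ A _ ι T _ _ _ h
    have := norm_nonneg (σ.Z A)
    simp only [Nat.cast_zero, zero_mul] at h
    linarith
  | succ N ih =>
    intro φ A hA ι T hT hne hmap h
    rcases isEmpty_or_nonempty ι with he | ⟨⟨i₀⟩⟩
    · exact Finite.of_subsingleton
    obtain ⟨f₀, hf₀⟩ := hmap i₀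
    obtain ⟨K, k, d, hK⟩ := distinguished_cocone_triangle₁ f₀
    have hKP : σ.P φ K := σ.fibre_mem_of_stable (hT i₀) hA k f₀ hf₀ d hK
    have hn : ‖σ.Z A‖ = ‖σ.Z K‖ + ‖σ.Z (T i₀)‖ := σ.norm_Z_add _ hK hKP (hT i₀).1
    have hε := σ.ε_le φ (T i₀) (hT i₀).1 (hT i₀).2.1
    refine A5a_finite i₀ (ih hKP (fun i : {i : ι // i ≠ i₀} => T i) (fun i => hT i)
      (fun i j hij => hne i j fun h => hij (Subtype.ext h)) (fun i => ?_) ?_)
    · obtain ⟨f, hf⟩ := hmap i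
      refine ⟨k ≫ f, fun h0 => ?_⟩
      obtain ⟨g, hg⟩ := Triangle.yoneda_exact₂ _ hK f h0
      have hg0 : g ≠ 0 := by
        rintro rfl
        exact hf (by rw [hg]; exact comp_zero)
      have := σ.schur (hT i₀) (hT i) g hg0
      exact hne i₀ i i.2.symm ⟨asIso g⟩
    · push_cast at h
      linarith

theorem A5a_sub (σ : StabData C) (N : ℕ) : ∀ {φ : ℝ} {A : C}, σ.P φ A → ∀ {ι : Type w}
    (T : ι → C), (∀ i, σ.Stable φ (T i)) → (∀ i j, i ≠ j → ¬ Nonempty (T i ≅ T j)) →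
    (∀ i, ∃ f : T i ⟶ A, f ≠ 0) → ‖σ.Z A‖ < N * σ.ε → Finite ι := by
  induction N with
  | zero =>
    intro φ A _ ι T _ _ _ h
    have := norm_nonneg (σ.Z A)
    simp only [Nat.cast_zero, zero_mul] at h
    linarith
  | succ N ih =>
    intro φ A hA ι T hT hne hmap h
    rcases isEmpty_or_nonempty ι with he | ⟨⟨i₀⟩⟩
    · exact Finite.of_subsingleton
    obtain ⟨f₀, hf₀⟩ := hmap i₀
    obtain ⟨W, g, d, hW⟩ := distinguished_cocone_triangle f₀
    have hWP : σ.P φ W := σ.cone_mem_of_stable (hT i₀) hA f₀ hf₀ g d hW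
    have hn : ‖σ.Z A‖ = ‖σ.Z (T i₀)‖ + ‖σ.Z W‖ := σ.norm_Z_add _ hW (hT i₀).1 hWP
    have hε := σ.ε_le φ (T i₀) (hT i₀).1 (hT i₀).2.1
    refine A5a_finite i₀ (ih hWP (fun i : {i : ι // i ≠ i₀} => T i) (fun i => hT i)
      (fun i j hij => hne i j fun h => hij (Subtype.ext h)) (fun i => ?_) ?_)
    · obtain ⟨f, hf⟩ := hmap i
      refine ⟨f ≫ g, fun h0 => ?_⟩
      obtain ⟨u, hu⟩ := Triangle.coyoneda_exact₂ _ hW f h0
      have hu0 : u ≠ 0 := by
        rintro rfl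
        exact hf (by rw [hu]; exact zero_comp)
      have := σ.schur (hT i) (hT i₀) u hu0
      exact hne i i₀ i.2 ⟨asIso u⟩
    · push_cast at h
      linarith

theorem A5a_bound (σ : StabData C) (A : C) : ∃ N : ℕ, ‖σ.Z A‖ < N * σ.ε := by
  obtain ⟨N, hN⟩ := exists_nat_gt (‖σ.Z A‖ / σ.ε)
  exact ⟨N, (div_lt_iff₀ σ.ε_pos).1 hN⟩

/-- A5a. FINITELY MANY STABLE QUOTIENTS. If `A ∈ P φ` and `(T i)` is a family of pairwise non
isomorphic stable objects of phase `φ` with nonzero maps `A → T i`, then the index type is finite.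
Proof: strong induction on `⌊‖Z A‖ / ε⌋`. If the index type is empty, done. Otherwise choose `i₀` and
let `A' → A → T i₀ →` be a triangle; `A' ∈ P φ` (A3f), `‖Z A'‖ ≤ ‖Z A‖ - ε`. For `i ≠ i₀` the composite
`A' → A → T i` is nonzero: otherwise `A → T i` factors through `T i₀ → T i`, which is zero by Schur
(A3g). So `{i // i ≠ i₀}` is finite by induction. -/
theorem StabData.finite_quotients (σ : StabData C) {φ : ℝ} {A : C} (hA : σ.P φ A) {ι : Type w}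
    (T : ι → C) (hT : ∀ i, σ.Stable φ (T i)) (hne : ∀ i j, i ≠ j → ¬ Nonempty (T i ≅ T j))
    (hmap : ∀ i, ∃ f : A ⟶ T i, f ≠ 0) : Finite ι := by
  obtain ⟨N, hN⟩ := A5a_bound σ A
  exact A5a_quot σ N hA T hT hne hmap hN

/-- A5b. FINITELY MANY STABLE SUBOBJECTS (dual; use the cone, A3e). -/
theorem StabData.finite_subobjects (σ : StabData C) {φ : ℝ} {A : C} (hA : σ.P φ A) {ι : Type w}
    (T : ι → C) (hT : ∀ i, σ.Stable φ (T i)) (hne : ∀ i j, i ≠ j → ¬ Nonempty (T i ≅ T j))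
    (hmap : ∀ i, ∃ f : T i ⟶ A, f ≠ 0) : Finite ι := by
  obtain ⟨N, hN⟩ := A5a_bound σ A
  exact A5a_sub σ N hA T hT hne hmap hN

end M21
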