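import Pool.Agent.H.MP_21b43d_ag.A5a

/-! # M21 (MP_21b43d): A5b equality of the phases -/

open CategoryTheory CategoryTheory.Limits CategoryTheory.Pretriangulated

universe v u w

namespace M21

variable {C : Type u} [Category.{v} C] [HasZeroObject C] [HasShift C ℤ] [Preadditive C]
  [∀ n : ℤ, (shiftFunctor C n).Additive] [Pretriangulated C] [IsTriangulated C]

/-- A5c. Phases of stable objects with equal central charge differ by even integers
(`m exp(iπφ) = m' exp(iπφ')` with `m, m' > 0`). -/
theorem StabData.phase_congr (σ : StabData C) {φ ψ : ℝ} {E F : C} (hE : σ.P φ E) (hF : σ.P ψ F)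
    (hE0 : ¬ IsZero E) (hF0 : ¬ IsZero F) (hZ : σ.Z E = σ.Z F) : ∃ n : ℤ, φ = ψ + 2 * n := by
  obtain ⟨m, hm, h1⟩ := σ.Z_phase φ E hE hE0
  obtain ⟨m', hm', h2⟩ := σ.Z_phase ψ F hF hF0
  rw [hZ, h2] at h1
  have hn : ∀ x : ℝ, ‖Complex.exp (Real.pi * x * Complex.I)‖ = 1 := by
    intro x
    have := Complex.norm_exp_ofReal_mul_I (Real.pi * x)
    push_cast at this
    exact this
  have h3 := congrArg norm h1
  rw [norm_mul, norm_mul, hn, hn, mul_one, mul_one, Complex.norm_real, Complex.norm_real,
    Real.norm_of_nonneg hm'.le, Real.norm_of_nonneg hm.le] at h3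
  subst h3
  have h4 : (m' : ℂ) ≠ 0 := by exact_mod_cast hm.ne'
  have h5 := mul_left_cancel₀ h4 h1
  rw [Complex.exp_eq_exp_iff_exists_int] at h5
  obtain ⟨n, hn⟩ := h5
  refine ⟨-n, ?_⟩
  have hpi : (Real.pi : ℂ) * Complex.I ≠ 0 :=
    mul_ne_zero (by exact_mod_cast Real.pi_ne_zero) Complex.I_ne_zero
  have h6 : (ψ : ℂ) = φ + 2 * n := by
    apply mul_right_cancel₀ hpi
    linear_combination hn
  have h7 : ψ = φ + 2 * n := by exact_mod_cast h6
  push_cast
  linarith

/-- A5e. EQUAL PHASES. Let `(O x)`, `x` in an infinite type, be pairwise non isomorphic (also up to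
shifts is not needed) stable objects of phases `ph x` with equal central charges, `A` an object of
`P f`, and `t` an integer such that for every `x` there is `t' ≥ t` with `Hom(A, (O x)[-t']) ≠ 0`, and
`Hom(O x, A[t + 2]) ≠ 0`. Then all phases `ph x` are equal.
Proof. `Hom(A, (O x)[-t']) ≠ 0` gives `f ≤ ph x - t'` (A2j / hom_zero), so `f + t ≤ f + t' ≤ ph x`;
`Hom(O x, A[t+2]) ≠ 0` gives `ph x ≤ f + t + 2`. By A5c the phases are congruent modulo 2. If two of
them are different, they are `f + t` and `f + t + 2`, and then every `x` has `ph x = f + t` or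
`ph x = f + t + 2` (congruent mod 2 and in `[f + t, f + t + 2]`). The set of `x` with
`ph x = f + t` is finite: then `t' = t` (as `f + t' ≤ f + t`) and `A → (O x)[-t]` is a nonzero map to a
stable object of phase `f` (A5d), A5a. The set of `x` with `ph x = f + t + 2` is finite: the nonzero
map `O x → A[t+2]` gives a nonzero map `(O x)[-t-2] → A` from a stable object of phase `f`, A5b. So the
index type is finite, a contradiction. -/
theorem StabData.phases_eq (σ : StabData C) {ι : Type w} [Infinite ι] (O : ι → C) (ph : ι → ℝ)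
    (hO : ∀ x, σ.Stable (ph x) (O x)) (hne : ∀ x y, x ≠ y → ¬ Nonempty (O x ≅ O y))
    (hZ : ∀ x y, σ.Z (O x) = σ.Z (O y)) (f : ℝ) (A : C) (hA : σ.P f A) (t : ℤ)
    (h₁ : ∀ x, ∃ t' : ℤ, t ≤ t' ∧ ∃ g : A ⟶ (O x)⟦-t'⟧, g ≠ 0)
    (h₂ : ∀ x, ∃ g : O x ⟶ A⟦t + 2⟧, g ≠ 0) : ∀ x y, ph x = ph y := by
  have hlow : ∀ x, ∀ t' : ℤ, (∃ g : A ⟶ (O x)⟦-t'⟧, g ≠ 0) → f + t' ≤ ph x := by
    rintro x t' ⟨g, hg⟩
    by_contra hc
    refine hg (σ.hom_shift_zero hA (hO x).1 (-t') ?_ g)
    push_cast
    linarith
  have hlow' : ∀ x, f + t ≤ ph x := by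
    intro x
    obtain ⟨t', ht', hg⟩ := h₁ x
    have h3 := hlow x t' hg
    have h4 : (t : ℝ) ≤ t' := by exact_mod_cast ht'
    linarith
  have hup : ∀ x, ph x ≤ f + t + 2 := by
    intro x
    obtain ⟨g, hg⟩ := h₂ x
    by_contra hc
    refine hg (σ.hom_shift_zero (hO x).1 hA (t + 2) ?_ g)
    push_cast
    linarith
  have hcongr : ∀ x y, ∃ n : ℤ, ph x = ph y + 2 * n := fun x y =>
    σ.phase_congr (hO x).1 (hO y).1 (hO x).2.1 (hO y).2.1 (hZ x y)
  -- the two finite sets
  have hiso : ∀ (n : ℤ) (z z' : ι), Nonempty ((O z)⟦n⟧ ≅ (O z')⟦n⟧) → z = z' := by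
    rintro n z z' ⟨e⟩
    by_contra hc
    exact hne z z' hc ⟨(shiftFunctor C n).preimageIso e⟩
  have hfin₁ : {z | ph z = f + t}.Finite := by
    have : Finite {z | ph z = f + t} := by
      refine σ.finite_quotients hA (fun z : {z | ph z = f + t} => (O z.1)⟦-t⟧) ?_ ?_ ?_
      · rintro ⟨z, hz⟩
        have h3 := σ.stable_shift (hO z) (-t)
        have h4 : ph z + ((-t : ℤ) : ℝ) = f := by
          rw [show ph z = f + t from hz]
          push_cast
          ring
        rwa [h4] at h3
      · rintro z z' hzz hc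
        exact hzz (Subtype.ext (hiso (-t) z.1 z'.1 hc))
      · rintro ⟨z, hz⟩
        obtain ⟨t', ht', hg⟩ := h₁ z
        have h3 := hlow z t' hg
        rw [show ph z = f + t from hz] at h3
        have h4 : t' = t := by
          have : (t' : ℝ) ≤ t := by linarith
          have : t' ≤ t := by exact_mod_cast this
          omega
        rw [h4] at hg
        exact hg
    exact Set.toFinite _
  have hfin₂ : {z | ph z = f + t + 2}.Finite := by
    have : Finite {z | ph z = f + t + 2} := by
      refine σ.finite_subobjects hA (fun z : {z | ph z = f + t + 2} => (O z.1)⟦-(t + 2)⟧) ?_ ?_ ?_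
      · rintro ⟨z, hz⟩
        have h3 := σ.stable_shift (hO z) (-(t + 2))
        have h4 : ph z + ((-(t + 2) : ℤ) : ℝ) = f := by
          rw [show ph z = f + t + 2 from hz]
          push_cast
          ring
        rwa [h4] at h3
      · rintro z z' hzz hc
        exact hzz (Subtype.ext (hiso (-(t + 2)) z.1 z'.1 hc))
      · rintro ⟨z, hz⟩
        obtain ⟨g, hg⟩ := h₂ z
        refine ⟨(shiftFunctor C (-(t + 2))).map g ≫ (shiftShiftNeg A (t + 2)).hom, fun h0 => hg ?_⟩
        have h3 : (shiftFunctor C (-(t + 2))).map g = 0 := by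
          rw [← cancel_mono (shiftShiftNeg A (t + 2)).hom, h0, zero_comp]
        exact (shiftFunctor C (-(t + 2))).map_injective (by rw [h3, Functor.map_zero])
    exact Set.toFinite _
  -- the dichotomy
  have hlt : ∀ x y, ¬ ph x < ph y := by
    intro x y hxy
    have hx : ph x = f + t := by
      obtain ⟨n, hn⟩ := hcongr y x
      have h3 := hlow' x
      have h4 := hup y
      have h5 : 0 < n := by
        by_contra hc
        have : (n : ℝ) ≤ 0 := by exact_mod_cast not_lt.1 hc
        linarith
      have h6 : (1 : ℝ) ≤ n := by exact_mod_cast h5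
      linarith
    have hall : ∀ z, z ∈ {z | ph z = f + t} ∪ {z | ph z = f + t + 2} := by
      intro z
      obtain ⟨n, hn⟩ := hcongr z x
      have h3 := hlow' z
      have h4 := hup z
      rw [hx] at hn
      have h5 : 0 ≤ n := by
        by_contra hc
        have : (n : ℝ) ≤ -1 := by
          have : n ≤ -1 := by omega
          exact_mod_cast this
        linarith
      have h6 : n ≤ 1 := by
        by_contra hc
        have : (2 : ℝ) ≤ n := by
          have : 2 ≤ n := by omega
          exact_mod_cast this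
        linarith
      have h7 : n = 0 ∨ n = 1 := by omega
      rcases h7 with h7 | h7
      · left
        show ph z = f + t
        rw [hn, h7]
        push_cast
        ring
      · right
        show ph z = f + t + 2
        rw [hn, h7]
        push_cast
        ring
    have hu : (Set.univ : Set ι).Finite := (hfin₁.union hfin₂).subset fun z _ => hall z
    exact Set.infinite_univ hu
  intro x y
  rcases lt_trichotomy (ph x) (ph y) with h | h | h
  · exact absurd h (hlt x y)
  · exact h
  · exact absurd h (hlt y x)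

end M21
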