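import Pool.Agent.H.MP_21b43d_ag.Base

/-!
# M21: the `ℂ`-linear structure of the category of sheaves of modules of a complex scheme,
the Euler form on the derived category (definitions)
-/

open CategoryTheory CategoryTheory.Limits AlgebraicGeometry TopologicalSpace

noncomputable section

namespace M21

variable {X : Scheme.{0}}

/-- Multiplication by a global function as an endomorphism of a sheaf of modules. -/
def mulG (r : Γ(X, ⊤)) (M : X.Modules) : M ⟶ M :=
  mkHom (fun U s => resF (le_top : U ≤ ⊤) r • s) (fun _ _ _ => smul_add _ _ _)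
    (fun _ _ _ => smul_comm _ _ _)
    (fun {U V} h s => by
      refine Eq.trans ?_ (res_smul h _ s).symm
      exact congrArg (· • res M h s) (resF_resF le_top h r).symm)

theorem mulG_app (r : Γ(X, ⊤)) (M : X.Modules) (U : X.Opens) (s : Γ(M, U)) :
    (mulG r M).app U s = resF (le_top : U ≤ ⊤) r • s := rfl

theorem comp_mulG {M N : X.Modules} (φ : M ⟶ N) (r : Γ(X, ⊤)) :
    φ ≫ mulG r N = mulG r M ≫ φ :=
  hom_ext_app fun _ _ => (Scheme.Modules.Hom.app_smul _ _ _).symm

theorem mulG_one (M : X.Modules) : mulG 1 M = 𝟙 M :=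
  hom_ext_app fun U s => by
    rw [mulG_app]
    change resF (le_top : U ≤ ⊤) (1 : Γ(X, ⊤)) • s = s
    simp [resF]

theorem mulG_mul (r r' : Γ(X, ⊤)) (M : X.Modules) : mulG (r * r') M = mulG r' M ≫ mulG r M :=
  hom_ext_app fun U s => by
    rw [mulG_app, comp_app_apply, mulG_app, mulG_app, ← mul_smul]
    simp [resF]

theorem mulG_add (r r' : Γ(X, ⊤)) (M : X.Modules) : mulG (r + r') M = mulG r M + mulG r' M :=
  hom_ext_app fun U s => by
    rw [Scheme.Modules.Hom.add_app]
    change resF (le_top : U ≤ ⊤) (r + r') • s = resF (le_top : U ≤ ⊤) r • s +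
      resF (le_top : U ≤ ⊤) r' • s
    rw [← add_smul]
    simp [resF]

theorem mulG_zero (M : X.Modules) : mulG 0 M = 0 :=
  hom_ext_app fun U s => by
    rw [mulG_app]
    change resF (le_top : U ≤ ⊤) (0 : Γ(X, ⊤)) • s = 0
    simp [resF]

/-- The ring homomorphism `ℂ → Γ(X, 𝒪_X)` of a complex scheme. -/
def cmap (f : X ⟶ Spec (.of ℂ)) : ℂ →+* Γ(X, ⊤) :=
  f.appTop.hom.comp (Scheme.ΓSpecIso (.of ℂ)).inv.hom

/-- The `ℂ`-linear structure on the category of sheaves of modules of a complex scheme: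
`c • φ` is `φ` followed by the multiplication by the image of `c` in `Γ(X, 𝒪_X)`. -/
@[reducible]
def linC (f : X ⟶ Spec (.of ℂ)) : Linear ℂ X.Modules where
  homModule M N :=
    { smul := fun c φ => φ ≫ mulG (cmap f c) N
      one_smul := fun φ => by
        change φ ≫ mulG (cmap f 1) N = φ
        rw [map_one, mulG_one, Category.comp_id]
      mul_smul := fun a b φ => by
        change φ ≫ mulG (cmap f (a * b)) N = (φ ≫ mulG (cmap f b) N) ≫ mulG (cmap f a) N
        rw [map_mul, mulG_mul, Category.assoc]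
      smul_zero := fun a => zero_comp
      smul_add := fun a φ ψ => Preadditive.add_comp _ _ _ _ _ _
      add_smul := fun a b φ => by
        change φ ≫ mulG (cmap f (a + b)) N = φ ≫ mulG (cmap f a) N + φ ≫ mulG (cmap f b) N
        rw [map_add, mulG_add, Preadditive.comp_add]
      zero_smul := fun φ => by
        change φ ≫ mulG (cmap f 0) N = 0
        rw [map_zero, mulG_zero, comp_zero] }
  smul_comp M N K c φ ψ := by
    change (φ ≫ mulG (cmap f c) N) ≫ ψ = (φ ≫ ψ) ≫ mulG (cmap f c) K
    rw [Category.assoc, Category.assoc, comp_mulG]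
  comp_smul M N K φ c ψ := by
    change φ ≫ ψ ≫ mulG (cmap f c) K = (φ ≫ ψ) ≫ mulG (cmap f c) K
    rw [Category.assoc]

/-- The dimension over `ℂ` of the space of morphisms `G ⟶ F` in the derived category
(`0` if it is not finite). -/
def homDim (f : X ⟶ Spec (.of ℂ)) (G F : DMod X) : ℕ :=
  letI := linC f
  Module.finrank ℂ (G ⟶ F)

/-- The Euler form `χ(G, F) = ∑ (-1)^i dim Hom(G, F[i])`. -/
def chi (f : X ⟶ Spec (.of ℂ)) (G F : DMod X) : ℤ :=
  ∑ᶠ i : ℤ, (i.negOnePow : ℤ) * (homDim f G (F⟦i⟧) : ℤ)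

end M21
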