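import Mathlib

/-!
# M21: commutative algebra of a noetherian (stalk) ring whose maximal ideal is generated by a
regular sequence `a, b` of length two: second syzygies are free, the ring is factorial.
-/

open IsLocalRing

namespace M21

section

variable {R : Type*} [CommRing R] [IsLocalRing R] [IsNoetherianRing R] {a b : R}

/-- The maximal ideal is generated by the regular sequence `a, b`. -/
structure IsPar2 (R : Type*) [CommRing R] [IsLocalRing R] (a b : R) : Prop where
  max : maximalIdeal R = Ideal.span {a, b}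
  reg₁ : ∀ x : R, a * x = 0 → x = 0
  reg₂ : ∀ x : R, a ∣ b * x → a ∣ x

omit [IsNoetherianRing R] in
theorem IsPar2.mem₁ (h : IsPar2 R a b) : a ∈ maximalIdeal R := by
  rw [h.max]; exact Ideal.subset_span (by simp)

omit [IsNoetherianRing R] in
theorem IsPar2.mem₂ (h : IsPar2 R a b) : b ∈ maximalIdeal R := by
  rw [h.max]; exact Ideal.subset_span (by simp)

/-- `R/a` is a domain. -/
theorem IsPar2.isDomain_quot (h : IsPar2 R a b) : IsDomain (R ⧸ Ideal.span {a}) := by
  have hne : Ideal.span {a} ≠ ⊤ := by
    intro h1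
    have : (1 : R) ∈ maximalIdeal R := by
      have h2 : Ideal.span {a} ≤ maximalIdeal R := by
        rw [Ideal.span_singleton_le_iff_mem]; exact h.mem₁
      rw [h1] at h2
      exact h2 trivial
    exact (Ideal.ne_top_iff_one _).mp (maximalIdeal.isMaximal R).ne_top this
  have hnt : Nontrivial (R ⧸ Ideal.span {a}) := Ideal.Quotient.nontrivial_iff.mpr hne
  have hloc : IsLocalRing (R ⧸ Ideal.span {a}) :=
    IsLocalRing.of_surjective' (Ideal.Quotient.mk _) Ideal.Quotient.mk_surjective
  set S := R ⧸ Ideal.span {a} with hS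
  set β : S := Ideal.Quotient.mk _ b with hβ
  have hβreg : ∀ x : S, β * x = 0 → x = 0 := by
    intro x hx
    obtain ⟨x, rfl⟩ := Ideal.Quotient.mk_surjective x
    rw [hβ, ← map_mul, Ideal.Quotient.eq_zero_iff_mem, Ideal.mem_span_singleton] at hx
    rw [Ideal.Quotient.eq_zero_iff_mem, Ideal.mem_span_singleton]
    exact h.reg₂ x hx
  have hβpow : ∀ n : ℕ, ∀ x : S, β ^ n * x = 0 → x = 0 := by
    intro n
    induction n with
    | zero => intro x hx; simpa using hx
    | succ n ih => intro x hx; rw [pow_succ, mul_assoc] at hx; exact hβreg x (ih _ hx)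
  have hunit : ∀ x : S, ¬ β ∣ x → IsUnit x := by
    intro x hx
    obtain ⟨r, rfl⟩ := Ideal.Quotient.mk_surjective x
    by_cases hr : IsUnit r
    · exact hr.map _
    · exfalso; apply hx
      have hr' : r ∈ maximalIdeal R := (mem_maximalIdeal _).mpr hr
      rw [h.max, Ideal.mem_span_pair] at hr'
      obtain ⟨c, d, hcd⟩ := hr'
      refine ⟨Ideal.Quotient.mk _ d, ?_⟩
      rw [← hcd, map_add, map_mul, map_mul]
      have : (Ideal.Quotient.mk (Ideal.span {a})) a = 0 := by
        rw [Ideal.Quotient.eq_zero_iff_mem]; exact Ideal.mem_span_singleton_self a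
      rw [this]; ring
  have hβm : Ideal.span {β} ≠ ⊤ := by
    intro h1
    rw [Ideal.span_singleton_eq_top] at h1
    have hlh : IsLocalHom (Ideal.Quotient.mk (Ideal.span {a})) :=
      IsLocalHom.of_surjective (Ideal.Quotient.mk (Ideal.span {a})) Ideal.Quotient.mk_surjective
    have : IsUnit b := isUnit_of_map_unit (Ideal.Quotient.mk (Ideal.span {a})) b h1
    exact (mem_maximalIdeal _).mp h.mem₂ this
  have hkrull : ∀ x : S, x ≠ 0 → ∃ n u, x = β ^ n * u ∧ IsUnit u := by
    intro x hx
    have h1 := Ideal.iInf_pow_eq_bot_of_isLocalRing (Ideal.span {β}) hβm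
    have h2 : ∃ n : ℕ, ¬ β ^ n ∣ x := by
      by_contra hcon
      push Not at hcon
      apply hx
      have : x ∈ (⨅ i : ℕ, Ideal.span {β} ^ i) := by
        rw [Ideal.mem_iInf]; intro i
        rw [Ideal.span_singleton_pow, Ideal.mem_span_singleton]; exact hcon i
      rw [h1] at this; exact this
    classical
    let n := Nat.find h2
    have hn : ¬ β ^ n ∣ x := Nat.find_spec h2
    have hn0 : n ≠ 0 := by
      intro h0; apply hn; rw [h0, pow_zero]; exact one_dvd x
    obtain ⟨k, hk⟩ := Nat.exists_eq_succ_of_ne_zero hn0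
    have hk2 : β ^ k ∣ x := by
      by_contra hc
      have := Nat.find_min' h2 hc
      change n ≤ k at this
      omega
    obtain ⟨u, hu⟩ := hk2
    refine ⟨k, u, hu, hunit u ?_⟩
    rintro ⟨w, hw⟩
    apply hn
    rw [hk]
    exact ⟨w, by rw [hu, hw, pow_succ, mul_assoc]⟩
  refine @NoZeroDivisors.to_isDomain S _ hnt ⟨?_⟩
  intro x y hxy
  by_contra hcon
  push Not at hcon
  obtain ⟨n, u, hu, huu⟩ := hkrull x hcon.1
  obtain ⟨m, v, hv, hvu⟩ := hkrull y hcon.2
  have h3 : β ^ (n + m) * (u * v) = 0 := by
    rw [pow_add, ← hxy, hu, hv]; ring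
  have h4 := hβpow _ _ h3
  exact (huu.mul hvu).ne_zero h4

/-- `R/a` is a principal ideal ring. -/
theorem IsPar2.isPrincipal_quot (h : IsPar2 R a b) :
    IsPrincipalIdealRing (R ⧸ Ideal.span {a}) := by
  have hd := h.isDomain_quot
  have hloc : IsLocalRing (R ⧸ Ideal.span {a}) :=
    IsLocalRing.of_surjective' (Ideal.Quotient.mk _) Ideal.Quotient.mk_surjective
  have hlh : IsLocalHom (Ideal.Quotient.mk (Ideal.span {a})) :=
      IsLocalHom.of_surjective (Ideal.Quotient.mk (Ideal.span {a})) Ideal.Quotient.mk_surjective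
  have hmax : (maximalIdeal (R ⧸ Ideal.span {a})).IsPrincipal := by
    refine ⟨⟨Ideal.Quotient.mk _ b, ?_⟩⟩
    apply le_antisymm
    · intro x hx
      obtain ⟨r, rfl⟩ := Ideal.Quotient.mk_surjective x
      have hr' : r ∈ maximalIdeal R := by
        rw [mem_maximalIdeal] at hx ⊢
        exact fun hu => hx (hu.map _)
      rw [h.max, Ideal.mem_span_pair] at hr'
      obtain ⟨c, d, hcd⟩ := hr'
      change _ ∈ Ideal.span {_}
      rw [Ideal.mem_span_singleton]
      refine ⟨Ideal.Quotient.mk _ d, ?_⟩
      rw [← hcd, map_add, map_mul, map_mul]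
      have : (Ideal.Quotient.mk (Ideal.span {a})) a = 0 := by
        rw [Ideal.Quotient.eq_zero_iff_mem]; exact Ideal.mem_span_singleton_self a
      rw [this]; ring
    · change Ideal.span {_} ≤ _
      rw [Ideal.span_singleton_le_iff_mem, mem_maximalIdeal]
      intro h1
      exact (mem_maximalIdeal _).mp h.mem₂
        (isUnit_of_map_unit (Ideal.Quotient.mk (Ideal.span {a})) b h1)
  exact ((tfae_of_isNoetherianRing_of_isLocalRing_of_isDomain
    (R ⧸ Ideal.span {a})).out 4 0).mp hmax

/-- Elements of `a M` for a free module `M`: `b`-torsion freeness of `M / a M` over `R / a` in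
the elementary form. -/
theorem IsPar2.smul_mem_of_free (h : IsPar2 R a b) {M : Type*} [AddCommGroup M] [Module R M]
    [Module.Free R M] (r : R) (hr : ¬ a ∣ r) (x : M) (hx : ∃ y : M, r • x = a • y) :
    ∃ y : M, x = a • y := by
  classical
  have hd := h.isDomain_quot
  let e := Module.Free.chooseBasis R M
  obtain ⟨y, hy⟩ := hx
  have hc : ∀ i, a ∣ e.repr x i := by
    intro i
    have h1 : r * e.repr x i = a * e.repr y i := by
      have := congrArg (fun z => e.repr z i) hy
      simpa using this
    have h2 : (Ideal.Quotient.mk (Ideal.span {a})) (r * e.repr x i) = 0 := by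
      rw [Ideal.Quotient.eq_zero_iff_mem, Ideal.mem_span_singleton, h1]
      exact Dvd.intro _ rfl
    rw [map_mul] at h2
    rcases mul_eq_zero.mp h2 with h3 | h3
    · rw [Ideal.Quotient.eq_zero_iff_mem, Ideal.mem_span_singleton] at h3
      exact absurd h3 hr
    · rwa [Ideal.Quotient.eq_zero_iff_mem, Ideal.mem_span_singleton] at h3
  choose c hc using hc
  refine ⟨∑ i ∈ (e.repr x).support, c i • e i, ?_⟩
  rw [Finset.smul_sum]
  conv_lhs => rw [← e.linearCombination_repr x, Finsupp.linearCombination_apply, Finsupp.sum]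
  refine Finset.sum_congr rfl fun i _ => ?_
  rw [smul_smul, ← hc i]

/-- **Second syzygies are free.** -/
theorem IsPar2.free_ker (h : IsPar2 R a b) {M N : Type*} [AddCommGroup M] [Module R M]
    [Module.Free R M] [Module.Finite R M] [AddCommGroup N] [Module R N]
    (hN : ∀ x : N, a • x = 0 → x = 0) (f : M →ₗ[R] N) :
    Module.Free R (LinearMap.ker f) := by
  have hd := h.isDomain_quot
  have hp := h.isPrincipal_quot
  have hfin : Module.Finite R (LinearMap.ker f) := inferInstance
  have hfp : Module.FinitePresentation R (LinearMap.ker f) :=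
    Module.finitePresentation_of_finite R _
  have hM : ∀ x : M, a • x = 0 → x = 0 := by
    classical
    intro x hx
    let e := Module.Free.chooseBasis R M
    apply e.repr.injective
    ext i
    have h1 : a * e.repr x i = 0 := by
      have := congrArg (fun z => e.repr z i) hx
      simpa using this
    simpa using h.reg₁ _ h1
  have hreg : IsSMulRegular (LinearMap.ker f) a := by
    rw [isSMulRegular_iff_right_eq_zero_of_smul]
    intro x hx
    apply Subtype.ext
    apply hM
    exact congrArg Subtype.val hx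
  have hjac : a ∈ (⊥ : Ideal R).jacobson := by
    rw [IsLocalRing.jacobson_eq_maximalIdeal _ bot_ne_top]
    exact h.mem₁
  rw [← Module.free_quotSMulTop_iff_free R _ hjac hreg]
  have hfin2 : Module.Finite (R ⧸ Ideal.span {a}) (QuotSMulTop a (LinearMap.ker f)) :=
    Module.Finite.of_restrictScalars_finite R _ _
  have htf : Module.IsTorsionFree (R ⧸ Ideal.span {a}) (QuotSMulTop a (LinearMap.ker f)) := by
    refine Module.IsTorsionFree.of_smul_eq_zero ?_
    intro r x hrx
    obtain ⟨r, rfl⟩ := Ideal.Quotient.mk_surjective r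
    obtain ⟨x, rfl⟩ := Submodule.Quotient.mk_surjective _ x
    by_cases hr : a ∣ r
    · left
      rw [Ideal.Quotient.eq_zero_iff_mem, Ideal.mem_span_singleton]; exact hr
    · right
      have h1 : (Submodule.Quotient.mk (r • x) : QuotSMulTop a (LinearMap.ker f)) = 0 := hrx
      rw [Submodule.Quotient.mk_eq_zero, Submodule.mem_smul_pointwise_iff_exists] at h1
      obtain ⟨y, -, hy⟩ := h1
      obtain ⟨z, hz⟩ := h.smul_mem_of_free r hr (x : M)
        ⟨(y : M), by rw [← Submodule.coe_smul, ← Submodule.coe_smul, hy]⟩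
      rw [Submodule.Quotient.mk_eq_zero, Submodule.mem_smul_pointwise_iff_exists]
      have hzk : z ∈ LinearMap.ker f := by
        rw [LinearMap.mem_ker]
        apply hN
        rw [← map_smul, ← hz]
        exact x.2
      exact ⟨⟨z, hzk⟩, trivial, Subtype.ext hz.symm⟩
  exact Module.free_of_finite_type_torsion_free'

/-- Every finitely generated module over `R` has a free resolution of length two. -/
theorem IsPar2.exists_resolution (h : IsPar2 R a b) (M : Type*) [AddCommGroup M] [Module R M]
    [Module.Finite R M] :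
    ∃ (m n r : ℕ) (p : (Fin m → R) →ₗ[R] M) (q : (Fin n → R) →ₗ[R] (Fin m → R))
      (s : (Fin r → R) →ₗ[R] (Fin n → R)), Function.Surjective p ∧
      LinearMap.range q = LinearMap.ker p ∧ LinearMap.range s = LinearMap.ker q ∧
      Function.Injective s := by
  obtain ⟨m, p, hp⟩ := Module.Finite.exists_fin' R M
  obtain ⟨n, q', hq'⟩ := Module.Finite.exists_fin' R (LinearMap.ker p)
  have hfree : Module.Free R (LinearMap.ker ((LinearMap.ker p).subtype ∘ₗ q')) := by
    refine h.free_ker ?_ _
    intro x hx
    funext i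
    exact h.reg₁ _ (congrFun hx i)
  have hfin : Module.Finite R (LinearMap.ker ((LinearMap.ker p).subtype ∘ₗ q')) := inferInstance
  let e := Module.finBasis R (LinearMap.ker ((LinearMap.ker p).subtype ∘ₗ q'))
  refine ⟨m, n, _, p, (LinearMap.ker p).subtype ∘ₗ q',
    (LinearMap.ker ((LinearMap.ker p).subtype ∘ₗ q')).subtype ∘ₗ e.equivFun.symm.toLinearMap,
    hp, ?_, ?_, ?_⟩
  · rw [LinearMap.range_comp, LinearMap.range_eq_top.mpr hq', Submodule.map_top,
      Submodule.range_subtype]
  · rw [LinearMap.range_comp, LinearEquiv.range, Submodule.map_top, Submodule.range_subtype]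
  · exact (Submodule.injective_subtype _).comp e.equivFun.symm.injective

/-- `R` is a domain. -/
theorem IsPar2.isDomain (h : IsPar2 R a b) : IsDomain R := by
  have hd := h.isDomain_quot
  have ha : Ideal.span {a} ≠ ⊤ := by
    rw [Ne, Ideal.span_singleton_eq_top]
    exact (mem_maximalIdeal _).mp h.mem₁
  have hpow : ∀ n : ℕ, ∀ x : R, a ^ n * x = 0 → x = 0 := by
    intro n
    induction n with
    | zero => intro x hx; simpa using hx
    | succ n ih => intro x hx; rw [pow_succ, mul_assoc] at hx; exact h.reg₁ x (ih _ hx)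
  have hkrull : ∀ x : R, x ≠ 0 → ∃ n u, x = a ^ n * u ∧ ¬ a ∣ u := by
    intro x hx
    have h1 := Ideal.iInf_pow_eq_bot_of_isLocalRing (Ideal.span {a}) ha
    have h2 : ∃ n : ℕ, ¬ a ^ n ∣ x := by
      by_contra hcon
      push Not at hcon
      apply hx
      have : x ∈ (⨅ i : ℕ, Ideal.span {a} ^ i) := by
        rw [Ideal.mem_iInf]; intro i
        rw [Ideal.span_singleton_pow, Ideal.mem_span_singleton]; exact hcon i
      rw [h1] at this; exact this
    classical
    let n := Nat.find h2
    have hn : ¬ a ^ n ∣ x := Nat.find_spec h2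
    have hn0 : n ≠ 0 := by
      intro h0; apply hn; rw [h0, pow_zero]; exact one_dvd x
    obtain ⟨k, hk⟩ := Nat.exists_eq_succ_of_ne_zero hn0
    have hk2 : a ^ k ∣ x := by
      by_contra hc
      have := Nat.find_min' h2 hc
      change n ≤ k at this
      omega
    obtain ⟨u, hu⟩ := hk2
    refine ⟨k, u, hu, ?_⟩
    rintro ⟨w, hw⟩
    apply hn
    rw [hk]
    exact ⟨w, by rw [hu, hw, pow_succ, mul_assoc]⟩
  refine @NoZeroDivisors.to_isDomain R _ inferInstance ⟨?_⟩
  intro x y hxy
  by_contra hcon
  push Not at hcon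
  obtain ⟨n, u, hu, huu⟩ := hkrull x hcon.1
  obtain ⟨m, v, hv, hvu⟩ := hkrull y hcon.2
  have h3 : a ^ (n + m) * (u * v) = 0 := by
    rw [pow_add, ← hxy, hu, hv]; ring
  have h4 := hpow _ _ h3
  have h5 : (Ideal.Quotient.mk (Ideal.span {a})) (u * v) = 0 := by rw [h4, map_zero]
  rw [map_mul] at h5
  rcases mul_eq_zero.mp h5 with h6 | h6
  · rw [Ideal.Quotient.eq_zero_iff_mem, Ideal.mem_span_singleton] at h6
    exact huu h6
  · rw [Ideal.Quotient.eq_zero_iff_mem, Ideal.mem_span_singleton] at h6
    exact hvu h6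

/-- `R` is factorial. -/
theorem IsPar2.factorial (h : IsPar2 R a b) :
    haveI := h.isDomain; UniqueFactorizationMonoid R := by
  have := h.isDomain
  refine UniqueFactorizationMonoid.of_forall_isPrincipal_of_height_eq_one ?_
  intro p hp hh
  have hpn : p ≠ ⊥ := p.ne_bot_of_height_eq_one hh
  obtain ⟨x, hxp, hx0⟩ := p.ne_bot_iff.mp hpn
  -- `p` is minimal over `(x)`, hence associated to `R / x`
  have hmin : p ∈ (Ideal.span {x}).minimalPrimes := by
    obtain ⟨q, hq, hqp⟩ := Ideal.exists_minimalPrimes_le
      (I := Ideal.span {x}) (J := p) ((Ideal.span_singleton_le_iff_mem (I := p)).mpr hxp)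
    have hqprime : q.IsPrime := hq.isPrime
    have hq0 : q ≠ ⊥ := by
      intro h0
      apply hx0
      have := hq.1.2 (Ideal.mem_span_singleton_self x)
      rw [h0] at this; exact this
    by_cases hqe : q = p
    · rw [← hqe]; exact hq
    · exfalso
      have h1 : q < p := lt_of_le_of_ne hqp hqe
      have h2 : q.height + 1 ≤ p.height := Ideal.height_add_one_le_of_lt_of_isPrime h1
      rw [hh] at h2
      have h3 : q.height = 0 := by
        have : q.height + 1 ≤ 0 + 1 := by simpa using h2
        have h4 := (WithTop.add_le_add_iff_right (by decide)).mp this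
        exact nonpos_iff_eq_zero.mp h4
      exact hq0 (Ideal.height_eq_zero_iff_eq_bot.mp h3)
  have hass : p ∈ associatedPrimes R (R ⧸ Ideal.span {x}) := by
    apply Module.associatedPrimes.minimalPrimes_annihilator_subset_associatedPrimes R
      (R ⧸ Ideal.span {x})
    rw [Ideal.annihilator_quotient]; exact hmin
  obtain ⟨-, m, hm⟩ := isAssociatedPrime_iff.mp hass
  obtain ⟨g, rfl⟩ := Ideal.Quotient.mk_surjective m
  have hmem : ∀ r : R, r ∈ p ↔ x ∣ r * g := by
    intro r
    rw [hm, Submodule.mem_colon_singleton, Submodule.mem_bot]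
    change (Ideal.Quotient.mk (Ideal.span {x})) (r * g) = 0 ↔ _
    rw [Ideal.Quotient.eq_zero_iff_mem, Ideal.mem_span_singleton]
  -- `p` is free
  let φ : R × R →ₗ[R] R :=
    LinearMap.coprod (LinearMap.mulRight R g) (LinearMap.mulRight R (-x))
  have hφ : Module.Free R (LinearMap.ker φ) := h.free_ker (fun y hy => h.reg₁ y hy) φ
  let ψ : LinearMap.ker φ →ₗ[R] p :=
    LinearMap.codRestrict p (LinearMap.fst R R R ∘ₗ (LinearMap.ker φ).subtype) (by
      rintro ⟨⟨r, s⟩, hrs⟩
      change r ∈ p
      rw [hmem]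
      rw [LinearMap.mem_ker] at hrs
      change r * g + s * (-x) = 0 at hrs
      exact ⟨s, by linear_combination hrs⟩)
  have hψ : Function.Bijective ψ := by
    constructor
    · rw [← LinearMap.ker_eq_bot, LinearMap.ker_eq_bot']
      rintro ⟨⟨r, s⟩, hrs⟩ h0
      have hr : r = 0 := congrArg Subtype.val h0
      rw [LinearMap.mem_ker] at hrs
      change r * g + s * (-x) = 0 at hrs
      have hs : s = 0 := by
        have : s * x = 0 := by rw [hr] at hrs; linear_combination -hrs
        rcases mul_eq_zero.mp this with h1 | h1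
        · exact h1
        · exact absurd h1 hx0
      apply Subtype.ext
      rw [Prod.ext_iff]
      exact ⟨hr, hs⟩
    · rintro ⟨r, hr⟩
      rw [hmem] at hr
      obtain ⟨s, hs⟩ := hr
      refine ⟨⟨(r, s), ?_⟩, rfl⟩
      rw [LinearMap.mem_ker]
      change r * g + s * (-x) = 0
      rw [hs]; ring
  have hfree : Module.Free R p := Module.Free.of_equiv (LinearEquiv.ofBijective ψ hψ)
  -- free ideals of a domain are principal
  let e := Module.Free.chooseBasis R p
  have hsub : Subsingleton (Module.Free.ChooseBasisIndex R p) := by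
    constructor
    intro i j
    by_contra hij
    have h1 : (e j : R) • e i = (e i : R) • e j := by
      apply Subtype.ext
      simp [mul_comm]
    have h2 := congrArg (fun z => e.repr z i) h1
    simp [Ne.symm hij] at h2
    exact e.ne_zero j h2
  have hpt : Nontrivial p := ⟨⟨x, hxp⟩, 0, fun h0 => hx0 (congrArg Subtype.val h0)⟩
  have hne : Nonempty (Module.Free.ChooseBasisIndex R p) := e.index_nonempty
  obtain ⟨i⟩ := hne
  refine ⟨⟨(e i : R), ?_⟩⟩
  apply le_antisymm
  · intro y hy
    have h1 := e.sum_repr ⟨y, hy⟩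
    rw [Fintype.sum_subsingleton _ i] at h1
    change y ∈ Ideal.span {_}
    rw [Ideal.mem_span_singleton]
    refine ⟨e.repr ⟨y, hy⟩ i, ?_⟩
    have h2 := congrArg Subtype.val h1
    simp only [Submodule.coe_smul, smul_eq_mul] at h2
    rw [mul_comm]; exact h2.symm
  · change Ideal.span {_} ≤ _
    rw [Ideal.span_singleton_le_iff_mem]
    exact (e i).2

/-- `R` is integrally closed. -/
theorem IsPar2.isIntegrallyClosed (h : IsPar2 R a b) :
    haveI := h.isDomain; IsIntegrallyClosed R := by
  have := h.isDomain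
  have := h.factorial
  infer_instance

end

end M21
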