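import Pool.Agent.H.MP_21b43d_ag.StabDefs

/-!
# M21: the bounded derived category of coherent sheaves of a scheme, skyscraper sheaves,
stability conditions on a complex scheme (definitions)
-/

open CategoryTheory CategoryTheory.Limits CategoryTheory.Pretriangulated AlgebraicGeometry

noncomputable section

namespace M21

/-- The (standard construction of the) derived category of the abelian category of
`𝒪_X`-modules. -/
instance instHasDerivedCategoryModules (X : Scheme.{0}) : HasDerivedCategory.{1} X.Modules :=
  HasDerivedCategory.standard _

/-- The unbounded derived category of `𝒪_X`-modules. -/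
abbrev DMod (X : Scheme.{0}) := DerivedCategory X.Modules

/-- Coherent modules (on a locally noetherian scheme): quasi-coherent with finitely generated
sections over every affine open. -/
structure IsCoh {X : Scheme.{0}} (M : X.Modules) : Prop where
  qcoh : M.IsQuasicoherent
  finite : ∀ U : X.Opens, IsAffineOpen U → Module.Finite Γ(X, U) Γ(M, U)

/-- `K` is in `D^b_coh(X)`: bounded with coherent cohomology sheaves. -/
def dbCoh (X : Scheme.{0}) : ObjectProperty (DMod X) := fun K =>
  (∃ a b : ℤ, K.IsGE a ∧ K.IsLE b) ∧
    ∀ i : ℤ, IsCoh ((DerivedCategory.homologyFunctor X.Modules i).obj K)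

/-- The category `D^b(X) = D^b_coh(X)`. -/
abbrev DbCoh (X : Scheme.{0}) := (dbCoh X).FullSubcategory

/-- The skyscraper sheaf `𝒪_x`: the direct image of the structure sheaf of the spectrum of the
residue field. -/
def sky {X : Scheme.{0}} (x : X) : X.Modules :=
  (Scheme.Modules.pushforward (X.fromSpecResidueField x)).obj
    (SheafOfModules.unit (Spec (X.residueField x)).ringCatSheaf)

/-- The skyscraper sheaf as an object of the derived category. -/
def skyD {X : Scheme.{0}} (x : X) : DMod X :=
  (DerivedCategory.singleFunctor X.Modules 0).obj (sky x)

end M21
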