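import Pool.Agent.H.MP_21b43d_ag.AsmE
import Pool.Agent.H.MP_21b43d_ag.T.Open
import Pool.Agent.H.MP_21b43d_ag.B.Coh3
import Pool.Agent.H.MP_21b43d_ag.B.Coh4
import Pool.Agent.H.MP_21b43d_ag.B.End4
import Pool.Agent.H.MP_21b43d_ag.CA2
import Pool.Agent.H.MP_21b43d_ag.B.Chi7
import Pool.Agent.H.MP_21b43d_ag.S.EndSky
import Pool.Agent.H.MP_21b43d_ag.S.B10a

/-!
# M21: the geometric inputs of Theorem E from condition (Y) (assembly)
-/

open CategoryTheory CategoryTheory.Limits CategoryTheory.Pretriangulated AlgebraicGeometry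
open AlgebraicGeometry.Scheme (Modules)

noncomputable section

namespace M21

variable {X : Scheme.{0}}

/-- Conditions at the closed points: the residue fields are `ℂ` and the maximal ideals of the local
rings are generated by a regular sequence of length two. -/
structure LocCond (f : X ⟶ Spec (.of ℂ)) : Prop where
  integral : IsIntegral X
  noeth : IsLocallyNoetherian X
  ft : LocallyOfFiniteType f
  res : ∀ x : X, IsClosed ({x} : Set X) →
    ∀ v : X.residueField x, ∃ c : ℂ, X.evaluation ⊤ x trivial (cmap f c) = v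
  par : ∀ x : X, IsClosed ({x} : Set X) →
    ∃ a b : X.presheaf.stalk x, IsPar2 (X.presheaf.stalk x) a b

theorem not_zeroAt_sky {x : X} (hx : IsClosed ({x} : Set X)) : ¬ ZeroAt (sky x) x := by
  intro h
  refine not_isZero_sky x (isZero_of_zeroAt fun y => ?_)
  by_cases hy : y = x
  · rw [hy]
    exact h
  · exact suppPt_sky hx y hy

theorem mem_supp_skyD {x : X} (hx : IsClosed ({x} : Set X)) : x ∈ supp (skyD x) := by
  have h := supp_single (sky x) 0
  have h1 : x ∈ {y : X | ¬ ZeroAt (sky x) y} := not_zeroAt_sky hx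
  rw [← h] at h1
  exact h1

theorem supp_skyD_eq {x : X} (hx : IsClosed ({x} : Set X)) : supp (skyD x) = {x} :=
  Set.Subset.antisymm (supp_skyD hx) (Set.singleton_subset_iff.2 (mem_supp_skyD hx))

theorem not_isZero_skyD {x : X} (hx : IsClosed ({x} : Set X)) : ¬ IsZero (skyD x) := by
  intro h
  have h1 := supp_isZero h
  rw [supp_skyD_eq hx] at h1
  exact Set.singleton_ne_empty x h1

/-- There are infinitely many closed points. -/
theorem infinite_closedPoints (f : X ⟶ Spec (.of ℂ)) (h : LocCond f) :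
    Infinite {x : X // IsClosed ({x} : Set X)} := by
  have := h.integral
  have := h.ft
  have hJ : JacobsonSpace X := LocallyOfFiniteType.jacobsonSpace f
  by_contra hfin
  rw [not_infinite_iff_finite] at hfin
  have hfin' : (closedPoints X).Finite := Set.finite_coe_iff.1 hfin
  have hcl : IsClosed (closedPoints X) := by
    have h1 : closedPoints X = ⋃ x ∈ closedPoints X, {x} := by
      ext y
      constructor
      · intro hy
        exact Set.mem_biUnion hy rfl
      · intro hy
        obtain ⟨z, hz, hyz⟩ := Set.mem_iUnion₂.1 hy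
        have : y = z := hyz
        rw [this]
        exact hz
    rw [h1]
    exact hfin'.isClosed_biUnion fun x hx => hx
  have huniv : closedPoints X = Set.univ := by
    rw [← hcl.closure_eq, closure_closedPoints]
  let ξ : X := genericPoint X
  have hξ : IsClosed ({ξ} : Set X) := by
    have : ξ ∈ closedPoints X := by
      rw [huniv]
      trivial
    exact this
  obtain ⟨a, b, hab⟩ := h.par ξ hξ
  have hf : IsField (X.presheaf.stalk ξ) := (inferInstance : Field X.functionField).toIsField
  have ha : a ∈ IsLocalRing.maximalIdeal (X.presheaf.stalk ξ) := hab.mem₁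
  have ha0 : a = 0 := by
    by_contra hne
    obtain ⟨c, hc⟩ := hf.mul_inv_cancel hne
    exact (IsLocalRing.mem_maximalIdeal a).1 ha (IsUnit.of_mul_eq_one c hc)
  have h1 : (1 : X.presheaf.stalk ξ) = 0 := hab.reg₁ 1 (by rw [ha0, zero_mul])
  exact one_ne_zero h1

/-- The statement: a cocycle which splits on a coherent module dies at the points of its
support. -/
def DiesStatement (X : Scheme.{0}) : Prop :=
  ∀ (M : X.Modules), IsCoh M → ∀ z : X, ¬ ZeroAt M z → ∀ (ι : Type) (U : ι → X.Opens)
    (c : Cocycle U), Splits c M → Dies c z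

/-- The statement: nonzero morphisms `𝒪_x → A[t + 2]`. -/
def FromSkyStatement (X : Scheme.{0}) : Prop :=
  ∀ (x : X), IsClosed ({x} : Set X) → (∃ a b : X.presheaf.stalk x, IsPar2 (X.presheaf.stalk x) a b) →
    ∀ A : DMod X, dbCoh X A → ∀ t : ℤ, ¬ ZeroAt (hh t A) x → ∃ g : skyD x ⟶ A⟦t + 2⟧, g ≠ 0

/-- The criterion at a closed point. -/
theorem crit_of_condY [IsLocallyNoetherian X] (hY : CondY X) (hD : DiesStatement X) {x : X}
    (hx : IsClosed ({x} : Set X)) (T : Triangle (DMod X)) (hT : T ∈ distTriang (DMod X))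
    (e : T.obj₂ ≅ skyD x) (hA : dbCoh X T.obj₁) (hB : dbCoh X T.obj₃)
    (hhom : ∀ i : ℤ, i ≤ 0 → ∀ g : T.obj₁ ⟶ T.obj₃⟦i⟧, g = 0) :
    IsZero T.obj₁ ∨ IsZero T.obj₃ := by
  have h0 : ∀ g : T.obj₁ ⟶ T.obj₃, g = 0 := by
    intro g
    have h1 := hhom 0 le_rfl (g ≫ ((shiftFunctorZero (DMod X) ℤ).inv.app T.obj₃))
    have h2 : g = (g ≫ ((shiftFunctorZero (DMod X) ℤ).inv.app T.obj₃)) ≫
        ((shiftFunctorZero (DMod X) ℤ).hom.app T.obj₃) := by simp
    rw [h2, h1, zero_comp]
  have hcl : IsClosed (supp T.obj₁ ∪ supp T.obj₃) :=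
    (isClosed_supp _ hA).union (isClosed_supp _ hB)
  by_cases hfin : (supp T.obj₁ ∪ supp T.obj₃).Finite ∧
      ∀ y ∈ supp T.obj₁ ∪ supp T.obj₃, IsClosed ({y} : Set X)
  · exact end_lemma hx T hT e ⟨_, hA.1.choose_spec.choose_spec.2⟩
      ⟨_, hB.1.choose_spec.choose_spec.1⟩ (fun n U hU => (hA.2 n).finite U hU)
      (fun n => (hB.2 n).qc) hfin.1 hfin.2 (fun i hi g => hhom i hi g)
  · exfalso
    obtain ⟨ι, U, c, hU, z, hz, hdie⟩ := hY _ hcl hfin
    apply hdie
    have hxT : x ∈ supp T.obj₁ ∪ supp T.obj₃ := by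
      have h1 := mem_supp_skyD hx
      rw [← supp_iso e] at h1
      exact supp_triangle₂ hT h1
    obtain ⟨i₀, hi₀⟩ := Set.mem_iUnion.1 (hU hxT)
    have hs := fun m => splits_open c T hT h0 x e i₀ hi₀ (fun y hy => hU (Or.inl hy))
      (fun y hy => hU (Or.inr hy)) m
    rcases hz with ⟨m, hm⟩ | ⟨m, hm⟩
    · exact hD _ (hA.2 m) z hm ι U c (hs m).1
    · exact hD _ (hB.2 m) z hm ι U c (hs m).2

/-- The structure sheaf does not vanish at the points. -/
theorem not_zeroAt_unit (X : Scheme.{0}) (x : X) : ¬ ZeroAt (unitMod X) x := by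
  intro h
  obtain ⟨V, hV, hxV, h1⟩ := h ⊤ trivial (1 : Γ(X, ⊤))
  have h2 : (resF hV (1 : Γ(X, ⊤)) : Γ(X, V)) = 0 := h1
  have h3 : (1 : Γ(X, V)) = 0 := by
    rw [← h2]
    exact (map_one _).symm
  have h4 := congrArg (X.presheaf.germ V x hxV) h3
  rw [map_one, map_zero] at h4
  exact one_ne_zero h4

theorem eInput_of_condY (f : X ⟶ Spec (.of ℂ)) (h : LocCond f) (hY : CondY X)
    (hD : DiesStatement X) (hF : FromSkyStatement X) : EInput f := by
  have := h.integral
  have := h.noeth
  refine
    { sky_mem := fun x hx => dbCoh_skyD x hx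
      sky_ne := fun x hx => not_isZero_skyD hx
      sky_end := fun x _ φ hφ => (skyD_endo x φ).resolve_left hφ
      sky_inj := fun x y hx hy => ?_
      crit := fun x hx T hT e hA hB hhom => crit_of_condY hY hD hx T hT e.some hA hB hhom
      gen := ?_
      num := fun x y hx hy G hG => ?_
      inf := infinite_closedPoints f h }
  · rintro ⟨e⟩
    have h1 := supp_iso e
    rw [supp_skyD_eq hx, supp_skyD_eq hy] at h1
    exact Set.singleton_injective h1
  · refine ⟨genericPoint X, ⟨unitD X, dbCoh_unitD, 0, ?_⟩, ?_⟩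
    · intro h0
      refine not_zeroAt_unit X (genericPoint X) (h0.of_iso ?_)
      exact (DerivedCategory.singleFunctorCompHomologyFunctorIso X.Modules 0).app (unitMod X)
    · intro A hA t ht x hx
      have hx' : ¬ ZeroAt (hh t A) x := by
        have hcl := isClosed_support (hh t A) (hA.2 t)
        have h1 : closure {genericPoint X} ⊆ {y : X | ¬ ZeroAt (hh t A) y} :=
          hcl.closure_subset_iff.2 (Set.singleton_subset_iff.2 ht)
        have h2 : closure {genericPoint X} = Set.univ := genericPoint_closure X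
        rw [h2] at h1
        exact h1 (Set.mem_univ x)
      exact ⟨exists_to_skyD x A hA t hx', hF x hx (h.par x hx) A hA t hx'⟩
  · obtain ⟨a, b, hab⟩ := h.par x hx
    obtain ⟨a', b', hab'⟩ := h.par y hy
    exact chi_sky_eq f x y (h.res x hx) (h.res y hy) hab hab' hG

end M21
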