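import Pool.Agent.H.MP_21b43d_ag.Defs
import Pool.Agent.H.MP_21b43d_ag.A4c
import Pool.Agent.H.MP_21b43d_ag.A5b
import Pool.Agent.H.MP_21b43d_ag.B.Supp

/-!
# M21: Theorem E from its geometric inputs (assembly)
-/

open CategoryTheory CategoryTheory.Limits CategoryTheory.Pretriangulated AlgebraicGeometry

noncomputable section

namespace M21

variable {X : Scheme.{0}}

theorem zeroAt_hh_of_distTriang (T : Triangle (DMod X)) (hT : T ∈ distTriang (DMod X)) (n : ℤ)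
    {x : X} (h1 : ZeroAt (hh n T.obj₁) x) (h3 : ZeroAt (hh n T.obj₃) x) :
    ZeroAt (hh n T.obj₂) x :=
  ZeroAt.of_exact (DerivedCategory.HomologySequence.exact₂ T hT n) h1 h3

/-- The geometric inputs of Theorem E. -/
structure EInput (f : X ⟶ Spec (.of ℂ)) : Prop where
  sky_mem : ∀ x : X, IsClosed ({x} : Set X) → dbCoh X (skyD x)
  sky_ne : ∀ x : X, IsClosed ({x} : Set X) → ¬ IsZero (skyD x)
  sky_end : ∀ x : X, IsClosed ({x} : Set X) → ∀ φ : skyD x ⟶ skyD x, φ ≠ 0 → IsIso φ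
  sky_inj : ∀ x y : X, IsClosed ({x} : Set X) → IsClosed ({y} : Set X) →
    Nonempty (skyD x ≅ skyD y) → x = y
  crit : ∀ x : X, IsClosed ({x} : Set X) → ∀ T ∈ distTriang (DMod X),
    Nonempty (T.obj₂ ≅ skyD x) → dbCoh X T.obj₁ → dbCoh X T.obj₃ →
    (∀ i : ℤ, i ≤ 0 → ∀ g : T.obj₁ ⟶ T.obj₃⟦i⟧, g = 0) → IsZero T.obj₁ ∨ IsZero T.obj₃
  gen : ∃ ξ : X, (∃ O : DMod X, dbCoh X O ∧ ∃ t : ℤ, ¬ ZeroAt (hh t O) ξ) ∧
    ∀ A : DMod X, dbCoh X A → ∀ t : ℤ, ¬ ZeroAt (hh t A) ξ →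
      ∀ x : X, IsClosed ({x} : Set X) →
        (∃ t' : ℤ, t ≤ t' ∧ ∃ g : A ⟶ (skyD x)⟦-t'⟧, g ≠ 0) ∧
        ∃ g : skyD x ⟶ A⟦t + 2⟧, g ≠ 0
  num : ∀ x y : X, IsClosed ({x} : Set X) → IsClosed ({y} : Set X) →
    ∀ G : DMod X, dbCoh X G → chi f G (skyD x) = chi f G (skyD y)
  inf : Infinite {x : X // IsClosed ({x} : Set X)}

variable [(dbCoh X).IsTriangulated]

/-- The stability data underlying a stability condition. -/
def StabilityCondition.toStabData {f : X ⟶ Spec (.of ℂ)} (σ : StabilityCondition f) :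
    StabData (DbCoh X) where
  toSlicing := σ.toSlicing
  Z E := σ.Z (σ.v E)
  Z_add T hT := by rw [σ.v_add T hT, map_add]
  Z_phase := σ.Z_phase
  ε := (max (Classical.choose σ.support) 1)⁻¹
  ε_pos := by positivity
  ε_le φ E hE hE0 := by
    have hC := Classical.choose_spec σ.support φ E hE
    set C := Classical.choose σ.support
    obtain ⟨m, hm, hZ⟩ := σ.Z_phase φ E hE hE0
    have hZ0 : σ.Z (σ.v E) ≠ 0 := by
      rw [hZ]
      exact mul_ne_zero (by exact_mod_cast hm.ne') (Complex.exp_ne_zero _)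
    have hv : σ.v E ≠ 0 := by
      intro h
      rw [h, map_zero] at hZ0
      exact hZ0 rfl
    obtain ⟨i, hi⟩ := Function.ne_iff.1 hv
    have h1 : (1 : ℝ) ≤ |(σ.v E i : ℝ)| := by
      have : (1 : ℤ) ≤ |σ.v E i| := Int.one_le_abs hi
      exact_mod_cast this
    have h2 := hC i
    have h3 : (1 : ℝ) ≤ max C 1 * ‖σ.Z (σ.v E)‖ :=
      h1.trans (h2.trans (mul_le_mul_of_nonneg_right (le_max_left _ _) (norm_nonneg _)))
    have h4 : 0 < max C 1 := by positivity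
    rw [inv_le_iff_one_le_mul₀ h4]
    linarith [mul_comm (max C 1) ‖σ.Z (σ.v E)‖]

/-- a property of the factors of a Harder-Narasimhan filtration -/
theorem exists_factor_of_hn {C : Type*} [Category C] [HasZeroObject C] [HasShift C ℤ]
    [Preadditive C] [∀ n : ℤ, (shiftFunctor C n).Additive] [Pretriangulated C]
    {P : ℝ → ObjectProperty C} (Q : C → Prop) (hQ0 : ∀ E, IsZero E → ¬ Q E)
    (hQ : ∀ T ∈ distTriang C, Q T.obj₂ → Q T.obj₁ ∨ Q T.obj₃) {L : List ℝ} {E : C}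
    (h : HN P L E) : Q E → ∃ (φ : ℝ) (A : C), P φ A ∧ ¬ IsZero A ∧ Q A := by
  induction h with
  | zero E hE => exact fun h => absurd h (hQ0 E hE)
  | step φ L T hT hF hA hA0 hφ ih =>
    intro h
    rcases hQ T hT h with h1 | h1
    · exact ih h1
    · exact ⟨φ, T.obj₃, hA, hA0, h1⟩

theorem exists_lift_shift {A B : DbCoh X} (i : ℤ) (g : A.obj ⟶ B.obj⟦i⟧) :
    ∃ g' : A ⟶ B⟦i⟧, g' = 0 → g = 0 := by
  let e : ((dbCoh X).ι.obj (B⟦i⟧)) ≅ (B.obj⟦i⟧) := ((dbCoh X).ι.commShiftIso i).app B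
  let g₁ : (dbCoh X).ι.obj A ⟶ (dbCoh X).ι.obj (B⟦i⟧) := g ≫ e.inv
  refine ⟨(dbCoh X).ι.preimage g₁, fun h0 => ?_⟩
  have h1 : g₁ = 0 := by
    rw [← (dbCoh X).ι.map_preimage g₁, h0, Functor.map_zero]
  have h2 : g = g₁ ≫ e.hom := by
    change g = (g ≫ e.inv) ≫ e.hom
    rw [Category.assoc, e.inv_hom_id, Category.comp_id]
  rw [h2, h1, zero_comp]

/-- THEOREM E from its inputs. -/
theorem isGeometric_of_input {f : X ⟶ Spec (.of ℂ)} (h : EInput f) (σ : StabilityCondition f) :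
    σ.IsGeometric := by
  let ι : ObjectProperty.FullSubcategory (dbCoh X) ⥤ DMod X := (dbCoh X).ι
  let I := {x : X // IsClosed ({x} : Set X)}
  have hinf : Infinite I := h.inf
  let O : I → DbCoh X := fun x => ⟨skyD x.1, h.sky_mem x.1 x.2⟩
  let τ := σ.toStabData
  -- stability
  have hst : ∀ x : I, ∃ φ : ℝ, τ.Stable φ (O x) := by
    intro x
    refine τ.stable_of_criterion (O x) ?_ ?_ ?_
    · intro h0
      exact h.sky_ne x.1 x.2 ((dbCoh X).ι.map_isZero h0)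
    · intro φ hφ
      have h1 : IsIso ((dbCoh X).ι.map φ) := by
        refine h.sky_end x.1 x.2 _ fun h2 => hφ ?_
        apply (dbCoh X).ι.map_injective
        rw [h2, Functor.map_zero]
      exact isIso_of_reflects_iso φ (dbCoh X).ι
    · intro D hD hDO hhom
      have hD' : (dbCoh X).ι.mapTriangle.obj D ∈ distTriang (DMod X) := hD
      have h1 := h.crit x.1 x.2 _ hD' ?_ D.obj₁.property D.obj₃.property ?_
      · rcases h1 with h1 | h1
        · left
          exact IsZero.of_full_of_faithful_of_isZero (dbCoh X).ι _ h1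
        · right
          exact IsZero.of_full_of_faithful_of_isZero (dbCoh X).ι _ h1
      · change Nonempty (D.obj₂.obj ≅ skyD x.1)
        rw [hDO]
        exact ⟨Iso.refl _⟩
      · intro i hi g
        obtain ⟨g', hg'⟩ := exists_lift_shift (A := D.obj₁) (B := D.obj₃) i g
        exact hg' (hhom i hi g')
  choose ph hph using hst
  -- equality of the phases
  have hphase : ∀ x y : I, ph x = ph y := by
    obtain ⟨ξ, ⟨O₀, hO₀, t₀, ht₀⟩, hgen⟩ := h.gen
    obtain ⟨L, hL⟩ := σ.hn (⟨O₀, hO₀⟩ : DbCoh X)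
    obtain ⟨φ, A, hA, -, t, ht⟩ := exists_factor_of_hn
      (fun E : DbCoh X => ∃ t : ℤ, ¬ ZeroAt (hh t E.obj) ξ)
      (fun E hE => by
        rintro ⟨t, ht⟩
        exact ht (ZeroAt.of_isZero
          ((DerivedCategory.homologyFunctor X.Modules t).map_isZero ((dbCoh X).ι.map_isZero hE)) ξ))
      (fun T hT => by
        rintro ⟨t, ht⟩
        by_contra hc
        push Not at hc
        exact ht (zeroAt_hh_of_distTriang ((dbCoh X).ι.mapTriangle.obj T) hT t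
          (hc.1 t) (hc.2 t))) hL ⟨t₀, ht₀⟩
    refine τ.phases_eq O ph hph ?_ ?_ φ A hA t ?_ ?_
    · rintro x y hxy ⟨e⟩
      exact hxy (Subtype.ext (h.sky_inj x.1 y.1 x.2 y.2 ⟨(dbCoh X).ι.mapIso e⟩))
    · intro x y
      change σ.Z (σ.v (O x)) = σ.Z (σ.v (O y))
      rw [σ.v_num (O x) (O y) fun G => h.num x.1 y.1 x.2 y.2 G.obj G.property]
    · intro x
      obtain ⟨⟨t', htt', g, hg⟩, -⟩ := hgen A.obj A.property t ht x.1 x.2
      refine ⟨t', htt', ?_⟩
      obtain ⟨g', hg'⟩ := exists_lift_shift (A := A) (B := O x) (-t') g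
      exact ⟨g', fun h0 => hg (hg' h0)⟩
    · intro x
      obtain ⟨-, g, hg⟩ := hgen A.obj A.property t ht x.1 x.2
      obtain ⟨g', hg'⟩ := exists_lift_shift (A := O x) (B := A) (t + 2) g
      exact ⟨g', fun h0 => hg (hg' h0)⟩
  obtain ⟨x₀⟩ : Nonempty I := inferInstance
  refine ⟨ph x₀, fun x hx => ⟨O ⟨x, hx⟩, ⟨Iso.refl _⟩, ?_⟩⟩
  rw [hphase x₀ ⟨x, hx⟩]
  exact hph ⟨x, hx⟩

end M21
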