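import Pool.Agent.H.MP_21b43d_ag.Coh
import Pool.Agent.H.MP_21b43d_ag.B.ModTools

/-!
# M21: basic notions for sheaves of modules (definitions)
-/

open CategoryTheory CategoryTheory.Limits AlgebraicGeometry TopologicalSpace

noncomputable section

namespace M21

variable {X : Scheme.{0}}

/-- restriction of functions -/
abbrev resF {U V : X.Opens} (h : V ≤ U) (r : Γ(X, U)) : Γ(X, V) :=
  X.presheaf.map (homOfLE h).op r

theorem resF_resF {U V W : X.Opens} (hV : V ≤ U) (hW : W ≤ V) (r : Γ(X, U)) :
    resF hW (resF hV r) = resF (hW.trans hV) r := by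
  change ((X.presheaf.map (homOfLE hV).op) ≫ (X.presheaf.map (homOfLE hW).op)) r = _
  rw [← Functor.map_comp]
  rfl

/-- the stalk of `M` at `x` is zero: every section is zero near `x` -/
def ZeroAt (M : X.Modules) (x : X) : Prop :=
  ∀ (U : X.Opens) (_ : x ∈ U) (s : Γ(M, U)), ∃ (V : X.Opens) (hV : V ≤ U), x ∈ V ∧ res M hV s = 0

/-- the `n`-th cohomology sheaf of an object of the derived category -/
abbrev hh (n : ℤ) (K : DMod X) : X.Modules :=
  (DerivedCategory.homologyFunctor X.Modules n).obj K

/-- the support of an object of the derived category -/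
def supp (K : DMod X) : Set X := {x | ∃ n : ℤ, ¬ ZeroAt (hh n K) x}

/-- explicit quasi-coherence: sections over `D(f)` are the localization of the sections over an
affine open `U` at `f` -/
structure QC (M : X.Modules) : Prop where
  ext : ∀ (U : X.Opens) (_ : IsAffineOpen U) (f : Γ(X, U)) (s : Γ(M, X.basicOpen f)),
    ∃ (n : ℕ) (t : Γ(M, U)),
      res M (X.basicOpen_le f) t = (resF (X.basicOpen_le f) f) ^ n • s
  tors : ∀ (U : X.Opens) (_ : IsAffineOpen U) (f : Γ(X, U)) (t : Γ(M, U)),
    res M (X.basicOpen_le f) t = 0 → ∃ n : ℕ, f ^ n • t = 0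

/-- A family of endomorphisms of the sections of `M` over the opens contained in `U`:
an endomorphism of the restriction of `M` to `U`. -/
structure LEnd (M : X.Modules) (U : X.Opens) where
  /-- the maps -/
  f : ∀ V : X.Opens, V ≤ U → Γ(M, V) → Γ(M, V)
  add : ∀ (V : X.Opens) (hV : V ≤ U) (s t : Γ(M, V)), f V hV (s + t) = f V hV s + f V hV t
  smul : ∀ (V : X.Opens) (hV : V ≤ U) (a : Γ(X, V)) (s : Γ(M, V)), f V hV (a • s) = a • f V hV s
  res : ∀ (V W : X.Opens) (hV : V ≤ U) (hW : W ≤ V) (s : Γ(M, V)),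
    f W (hW.trans hV) (res M hW s) = M21.res M hW (f V hV s)

variable {ι : Type}

/-- A Čech 1-cocycle with values in the structure sheaf for a family of opens. -/
structure Cocycle (U : ι → X.Opens) where
  /-- the values -/
  c : ∀ i j, Γ(X, U i ⊓ U j)
  add : ∀ (i j k : ι) (V : X.Opens) (h1 : V ≤ U i ⊓ U j) (h2 : V ≤ U j ⊓ U k)
    (h3 : V ≤ U i ⊓ U k), resF h1 (c i j) + resF h2 (c j k) = resF h3 (c i k)

/-- The local endomorphisms `α i` satisfy `α i - α j = c i j`. -/
def Splits {U : ι → X.Opens} (c : Cocycle U) (M : X.Modules) : Prop :=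
  ∃ α : ∀ i, LEnd M (U i), ∀ (i j : ι) (V : X.Opens) (hi : V ≤ U i) (hj : V ≤ U j) (s : Γ(M, V)),
    (α i).f V hi s - (α j).f V hj s = resF (le_inf hi hj) (c.c i j) • s

/-- The cocycle `c` dies at the point `z`: there are `d ≥ 1` and elements `g i` of the residue field
of `z` (for `z ∈ U i`) with `g i - g j = d c_{ij}(z)`, such that `g i` is integral over the image of
`Γ(X, V)` for every affine open `V` with `z ∈ V ⊆ U i`. -/
def Dies {U : ι → X.Opens} (c : Cocycle U) (z : X) : Prop :=
  ∃ (d : ℕ) (g : ι → X.residueField z), 0 < d ∧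
    (∀ (i j : ι) (hi : z ∈ U i) (hj : z ∈ U j),
      g i - g j = (d : X.residueField z) * X.evaluation (U i ⊓ U j) z ⟨hi, hj⟩ (c.c i j)) ∧
    ∀ (i : ι) (V : X.Opens), IsAffineOpen V → V ≤ U i → ∀ hz : z ∈ V,
      (X.evaluation V z hz).hom.IsIntegralElem (g i)

variable (X) in
/-- Condition (Y): for every closed subset `T` of `X` which is not a finite set of closed points there
are a family of opens `U i` with union containing `T` and a cocycle `c` for it which does not die at
some point `z` of `T`. -/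
def CondY : Prop :=
  ∀ T : Set X, IsClosed T → ¬ (T.Finite ∧ ∀ x ∈ T, IsClosed ({x} : Set X)) →
    ∃ (ι : Type) (U : ι → X.Opens) (c : Cocycle U), T ⊆ ⋃ i, (U i : Set X) ∧
      ∃ z ∈ T, ¬ Dies c z

end M21
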