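import Mathlib

/-!
# M21: the trace of an endomorphism of a finitely generated module at a point is integral
-/

open Module

open scoped TensorProduct

namespace M21

/-- If an endomorphism `f` of a finite dimensional vector space is killed by a monic polynomial
over `A`, its trace is integral over `A`. -/
theorem isIntegral_trace_of_aeval_eq_zero {A K : Type*} [CommRing A] [Field K] [Algebra A K]
    {V : Type*} [AddCommGroup V] [Module K V] [Module.Finite K V]
    (f : V →ₗ[K] V) (P : Polynomial A) (hP : P.Monic)
    (h : Polynomial.aeval f (P.map (algebraMap A K)) = 0) :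
    IsIntegral A (LinearMap.trace K V f) := by
  classical
  let b := Module.finBasis K V
  let L := AlgebraicClosure K
  have hinj : Function.Injective (algebraMap K L) := (algebraMap K L).injective
  rw [← isIntegral_algebraMap_iff (B := L) hinj]
  let M := LinearMap.toMatrix b b f
  have htr : LinearMap.trace K V f = M.trace := LinearMap.trace_eq_matrix_trace K b f
  have htr2 : algebraMap K L (LinearMap.trace K V f) = (M.map (algebraMap K L)).trace := by
    rw [htr]
    simp [Matrix.trace, map_sum]
  rw [htr2, Matrix.trace_eq_sum_roots_charpoly]
  have hM1 : Polynomial.aeval M (P.map (algebraMap A K)) = 0 := by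
    have h1 : M = LinearMap.toMatrixAlgEquiv b f := rfl
    rw [h1, Polynomial.aeval_algHom_apply, h, map_zero]
  have hM : Polynomial.aeval (M.map (algebraMap K L))
      ((P.map (algebraMap A K)).map (algebraMap K L)) = 0 := by
    have h2 : ((algebraMap K L).mapMatrix (Polynomial.aeval M (P.map (algebraMap A K))) :
        Matrix (Fin (finrank K V)) (Fin (finrank K V)) L) = 0 := by rw [hM1, map_zero]
    rw [Polynomial.aeval_def] at h2
    rw [Polynomial.aeval_def, Polynomial.eval₂_map]
    have h3 := Polynomial.hom_eval₂ (P.map (algebraMap A K))
      (algebraMap K (Matrix (Fin (finrank K V)) (Fin (finrank K V)) K))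
      (algebraMap K L).mapMatrix M
    rw [h2] at h3
    have h4 : (algebraMap L (Matrix (Fin (finrank K V)) (Fin (finrank K V)) L)).comp
        (algebraMap K L) = ((algebraMap K L).mapMatrix).comp
      (algebraMap K (Matrix (Fin (finrank K V)) (Fin (finrank K V)) K)) := by
      ext x i j
      simp only [RingHom.comp_apply, RingHom.mapMatrix_apply, Matrix.map_apply,
        Matrix.algebraMap_matrix_apply]
      split_ifs
      · rfl
      · exact (map_zero _).symm
    rw [h4]
    exact h3.symm
  have hroots : ∀ x ∈ (M.map (algebraMap K L)).charpoly.roots, IsIntegral A x := by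
    intro x hx
    have h1 : (M.map (algebraMap K L)).charpoly.IsRoot x := Polynomial.isRoot_of_mem_roots hx
    have h2 : (Matrix.toLin' (M.map (algebraMap K L))).charpoly.IsRoot x := by
      rwa [Matrix.charpoly_toLin']
    rw [← Module.End.hasEigenvalue_iff_isRoot_charpoly] at h2
    obtain ⟨v, hv⟩ := h2.exists_hasEigenvector
    have h3 := Module.End.aeval_apply_of_hasEigenvector
      (p := (P.map (algebraMap A K)).map (algebraMap K L)) hv
    have h4 : Polynomial.aeval (Matrix.toLin' (M.map (algebraMap K L)))
        ((P.map (algebraMap A K)).map (algebraMap K L)) = 0 := by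
      have h5 : Matrix.toLin' (M.map (algebraMap K L)) =
        Matrix.toLinAlgEquiv' (M.map (algebraMap K L)) := rfl
      rw [h5, Polynomial.aeval_algHom_apply, hM, map_zero]
    rw [h4, LinearMap.zero_apply] at h3
    have h6 := (smul_eq_zero.mp h3.symm).resolve_right hv.2
    refine ⟨P, hP, ?_⟩
    rw [Polynomial.map_map, ← IsScalarTower.algebraMap_eq, Polynomial.eval_map] at h6
    exact h6
  exact IsIntegral.multiset_sum hroots


/-- The trace at a point of an endomorphism of a finitely generated module is integral: `S` is
thought of as the stalk ring at the point, `K` as the residue field, `R` as the ring of an affine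
neighbourhood, `NS` as the stalk and `N` as the module of sections. -/
theorem isIntegral_trace_stalk {R S K : Type*} [CommRing R] [CommRing S] [Field K] [Algebra R S]
    [Algebra S K] [Algebra R K] [IsScalarTower R S K] {N NS : Type*} [AddCommGroup N] [Module R N]
    [Module.Finite R N] [AddCommGroup NS] [Module R NS] [Module S NS] [IsScalarTower R S NS]
    [Module.Finite S NS] (ι : N →ₗ[R] NS) (hι : Submodule.span S (Set.range ι) = ⊤)
    (f : N →ₗ[R] N) (fS : NS →ₗ[S] NS) (hf : ∀ x, fS (ι x) = ι (f x)) :
    IsIntegral R (LinearMap.trace K (K ⊗[S] NS) (fS.baseChange K)) := by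
  obtain ⟨P, hP, hP0⟩ := LinearMap.exists_monic_and_aeval_eq_zero R f
  refine isIntegral_trace_of_aeval_eq_zero _ P hP ?_
  have h1 : ∀ (Q : Polynomial R) (x : N), Polynomial.aeval fS (Q.map (algebraMap R S)) (ι x)
      = ι (Polynomial.aeval f Q x) := by
    intro Q x
    induction Q using Polynomial.induction_on generalizing x with
    | C r =>
      simp only [Polynomial.map_C, Polynomial.aeval_C, Module.algebraMap_end_apply,
        algebraMap_smul, map_smul]
    | add p q hp hq => simp only [Polynomial.map_add, map_add, LinearMap.add_apply, hp, hq]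
    | monomial n r ih =>
      have h2 : (Polynomial.C r * Polynomial.X ^ (n + 1) : Polynomial R) =
        (Polynomial.C r * Polynomial.X ^ n) * Polynomial.X := by ring
      have h3 : Polynomial.aeval f ((Polynomial.C r * Polynomial.X ^ n) * Polynomial.X) =
          Polynomial.aeval f (Polynomial.C r * Polynomial.X ^ n) * f := by
        rw [map_mul (Polynomial.aeval f) (Polynomial.C r * Polynomial.X ^ n),
          Polynomial.aeval_X]
      rw [h2, h3, Polynomial.map_mul, map_mul, Module.End.mul_apply,
        Polynomial.map_X, Polynomial.aeval_X, hf, ih, Module.End.mul_apply]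
  have h2 : Polynomial.aeval fS (P.map (algebraMap R S)) = 0 := by
    apply LinearMap.ext_on_range (v := fun x : N => ι x) hι
    intro x
    rw [h1, hP0]
    simp
  have h3 : ∀ Q : Polynomial S, Polynomial.aeval (fS.baseChange K) (Q.map (algebraMap S K)) =
      (Polynomial.aeval fS Q).baseChange K := by
    intro Q
    induction Q using Polynomial.induction_on with
    | C r =>
      ext x
      simp [Module.algebraMap_end_apply, TensorProduct.smul_tmul', Algebra.smul_def]
    | add p q hp hq => simp only [Polynomial.map_add, map_add, hp, hq, LinearMap.baseChange_add]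
    | monomial n r ih =>
      have h5 : (Polynomial.C r * Polynomial.X ^ (n + 1) : Polynomial S) =
        (Polynomial.C r * Polynomial.X ^ n) * Polynomial.X := by ring
      have h6 : Polynomial.aeval fS ((Polynomial.C r * Polynomial.X ^ n) * Polynomial.X) =
          Polynomial.aeval fS (Polynomial.C r * Polynomial.X ^ n) * fS := by
        rw [map_mul (Polynomial.aeval fS) (Polynomial.C r * Polynomial.X ^ n),
          Polynomial.aeval_X]
      rw [h5, h6, Polynomial.map_mul, map_mul, Polynomial.map_X, Polynomial.aeval_X, ih]
      exact (LinearMap.baseChange_mul _ _).symm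
  have h4 : P.map (algebraMap R K) = (P.map (algebraMap R S)).map (algebraMap S K) := by
    rw [Polynomial.map_map, ← IsScalarTower.algebraMap_eq]
  rw [h4, h3, h2, LinearMap.baseChange_zero]

/-- Difference of traces. -/
theorem trace_sub_eq {S K : Type*} [CommRing S] [Field K] [Algebra S K]
    {NS : Type*} [AddCommGroup NS] [Module S NS] [Module.Finite S NS]
    (f g : NS →ₗ[S] NS) (c : S) (h : ∀ x, f x - g x = c • x) :
    LinearMap.trace K (K ⊗[S] NS) (f.baseChange K) - LinearMap.trace K (K ⊗[S] NS) (g.baseChange K)
      = (Module.finrank K (K ⊗[S] NS) : K) * algebraMap S K c := by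
  rw [← map_sub, ← LinearMap.baseChange_sub]
  have h1 : f - g = c • LinearMap.id := by
    ext x; exact h x
  rw [h1]
  have h2 : (c • (LinearMap.id : NS →ₗ[S] NS)).baseChange K =
      (algebraMap S K c) • (LinearMap.id : (K ⊗[S] NS) →ₗ[K] (K ⊗[S] NS)) := by
    ext x
    simp [TensorProduct.smul_tmul', Algebra.smul_def]
  rw [h2, map_smul, LinearMap.trace_id, smul_eq_mul, mul_comm]

/-- Nakayama: a nonzero finitely generated module over a stalk ring has a nonzero fibre. -/
theorem finrank_fibre_pos {S : Type*} [CommRing S] [IsLocalRing S]
    {NS : Type*} [AddCommGroup NS] [Module S NS] [Module.Finite S NS] [Nontrivial NS] :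
    0 < Module.finrank (IsLocalRing.ResidueField S) (IsLocalRing.ResidueField S ⊗[S] NS) := by
  have : Nontrivial (IsLocalRing.ResidueField S ⊗[S] NS) := by
    rw [← not_subsingleton_iff_nontrivial, IsLocalRing.subsingleton_tensorProduct,
      not_subsingleton_iff_nontrivial]
    infer_instance
  exact Module.finrank_pos

end M21
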