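import Pool.Agent.H.MP_21b43d_ag.Lin

/-!
# M21: stability conditions on a complex scheme, geometric stability conditions, smooth projective
surfaces, finite morphisms to group schemes (definitions)
-/

open CategoryTheory CategoryTheory.Limits CategoryTheory.Pretriangulated AlgebraicGeometry

noncomputable section

namespace M21

variable {X : Scheme.{0}}

/-- A Bridgeland stability condition on `D^b(X)` (`X` a complex scheme with structure morphism `f`)
whose central charge factors through the numerical Grothendieck group and which satisfies the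
support property.

* a slicing `P` of `D^b(X)` (see `Slicing`);
* `Λ = ℤ^n` a lattice, `v : K_0(D^b(X)) → Λ` (a function on objects which is additive on
  distinguished triangles) which factors through the numerical Grothendieck group: objects
  with `χ(G, E) = χ(G, F)` for all `G` have the same class;
* the central charge `Z : Λ → ℂ` with `Z(v(E)) ∈ ℝ_{>0} e^{iπφ}` for `0 ≠ E ∈ P(φ)`;
* the support property: `‖v(E)‖ ≤ C |Z(v(E))|` for all semistable `E` (maximum norm on `ℤ^n`).

If the numerical Grothendieck group of `X` is free of finite rank, `Λ` can be this group; the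
definition allows every quotient lattice. -/
structure StabilityCondition (f : X ⟶ Spec (.of ℂ)) [(dbCoh X).IsTriangulated] extends
    Slicing (DbCoh X) where
  /-- the rank of the lattice -/
  n : ℕ
  /-- the class of an object in the lattice -/
  v : DbCoh X → (Fin n → ℤ)
  v_add : ∀ T ∈ distTriang (DbCoh X), v T.obj₂ = v T.obj₁ + v T.obj₃
  v_num : ∀ E F : DbCoh X, (∀ G : DbCoh X, chi f G.obj E.obj = chi f G.obj F.obj) → v E = v F
  /-- the central charge -/
  Z : (Fin n → ℤ) →+ ℂ
  Z_phase : ∀ (φ : ℝ) (E : DbCoh X), P φ E → ¬ IsZero E →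
    ∃ m : ℝ, 0 < m ∧ Z (v E) = (m : ℂ) * Complex.exp (Real.pi * φ * Complex.I)
  support : ∃ C : ℝ, ∀ (φ : ℝ) (E : DbCoh X), P φ E → ∀ i, |(v E i : ℝ)| ≤ C * ‖Z (v E)‖

/-- A stability condition is geometric if all skyscraper sheaves `𝒪_x` of closed points `x` are
stable of the same phase. -/
def StabilityCondition.IsGeometric {f : X ⟶ Spec (.of ℂ)} [(dbCoh X).IsTriangulated]
    (σ : StabilityCondition f) : Prop :=
  ∃ φ : ℝ, ∀ x : X, IsClosed ({x} : Set X) →
    ∃ E : DbCoh X, Nonempty (E.obj ≅ skyD x) ∧ σ.Stable φ E

/-- The grading of the polynomial ring by the degree. -/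
instance instGradedPoly (N : ℕ) :
    GradedAlgebra (MvPolynomial.homogeneousSubmodule (Fin (N + 1)) ℂ) :=
  MvPolynomial.gradedAlgebra

/-- The structure morphism of the projective space `ℙ^N = Proj ℂ[x_0, …, x_N]` over `ℂ`. -/
def projStr (N : ℕ) : Proj (MvPolynomial.homogeneousSubmodule (Fin (N + 1)) ℂ) ⟶ Spec (.of ℂ) :=
  Proj.toSpecZero (MvPolynomial.homogeneousSubmodule (Fin (N + 1)) ℂ) ≫
    Spec.map (CommRingCat.ofHom
      (algebraMap ℂ (MvPolynomial.homogeneousSubmodule (Fin (N + 1)) ℂ 0)))

/-- `f : X ⟶ Spec ℂ` is projective: there is a closed immersion over `ℂ` of `X` into a projective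
space `ℙ^N`. -/
def IsProjectiveC (f : X ⟶ Spec (.of ℂ)) : Prop :=
  ∃ (N : ℕ) (i : X ⟶ Proj (MvPolynomial.homogeneousSubmodule (Fin (N + 1)) ℂ)),
    IsClosedImmersion i ∧ i ≫ projStr N = f

/-- A smooth projective (integral) surface over `ℂ`. -/
structure IsSmoothProjectiveSurface (f : X ⟶ Spec (.of ℂ)) : Prop where
  integral : IsIntegral X
  smooth : SmoothOfRelativeDimension 2 f
  projective : IsProjectiveC f

/-- `A` is an abelian variety over `ℂ`: a proper integral group scheme. -/
def IsAbelianVariety (A : Over (Spec (.of ℂ))) [GrpObj A] : Prop :=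
  IsProper A.hom ∧ IsIntegral A.left

/-- The Albanese morphism of `X` is not finite.  The Albanese morphism is the initial morphism
from `X` to an abelian variety; it is finite if and only if there is a finite morphism from `X` to
some abelian variety (a finite morphism `X → A` factors through the Albanese morphism).  We state
it without the existence of the Albanese variety: no morphism over `ℂ` from `X` to an
abelian variety is finite. -/
def AlbaneseNotFinite (f : X ⟶ Spec (.of ℂ)) : Prop :=
  ∀ (A : Over (Spec (.of ℂ))) [GrpObj A], IsAbelianVariety A →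
    ∀ g : Over.mk f ⟶ A, ¬ IsFinite g.left

/-- `H^1(X, 𝒪_X) ≠ 0`, in the form `Ext^1(𝒪_X, 𝒪_X) ≠ 0`. -/
def IrregularSurface (X : Scheme.{0}) : Prop :=
  ∃ g : (DerivedCategory.singleFunctor X.Modules 0).obj
      (SheafOfModules.unit X.ringCatSheaf : X.Modules) ⟶
    ((DerivedCategory.singleFunctor X.Modules 0).obj
      (SheafOfModules.unit X.ringCatSheaf : X.Modules))⟦(1 : ℤ)⟧, g ≠ 0

/-- `X` contains no rational curve: no point of `X` has a residue field isomorphic over `ℂ` to the
field `ℂ(t)` of rational functions. -/
def NoRationalCurve (f : X ⟶ Spec (.of ℂ)) : Prop :=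
  ∀ (x : X) (e : RatFunc ℂ ≃+* X.residueField x),
    ¬ ∀ c : ℂ, e (algebraMap ℂ (RatFunc ℂ) c) = X.evaluation ⊤ x trivial (cmap f c)

end M21
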