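import Pool.Agent.H.MP_21b43d_ag.Asm3
import Pool.Agent.H.MP_21b43d_ag.B.Tr3
import Pool.Agent.H.MP_21b43d_ag.S.B10b
import Pool.Agent.H.MP_21b43d_ag.Z.Main

/-!
# M21: all stability conditions are geometric (assembly)
-/

open CategoryTheory CategoryTheory.Limits CategoryTheory.Pretriangulated AlgebraicGeometry
open AlgebraicGeometry.Scheme (Modules)

noncomputable section

namespace M21

variable {X : Scheme.{0}}

theorem diesStatement (X : Scheme.{0}) : DiesStatement X :=
  fun _ hM _ hz _ _ c hs => dies_of_isCoh hM hz c hs

theorem fromSkyStatement (X : Scheme.{0}) [IsIntegral X] [IsLocallyNoetherian X] :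
    FromSkyStatement X := by
  rintro x hx ⟨a, b, hab⟩ A hA t ht
  exact exists_from_skyD x hx hab A hA t ht

/-- The conditions at the closed points hold on smooth projective surfaces. -/
theorem locCond_of_surface (f : X ⟶ Spec (.of ℂ)) (hf : IsSmoothProjectiveSurface f) :
    LocCond f := by
  obtain ⟨hN, hp, hl⟩ := Z.local_conditions f hf
  exact
    { integral := hf.integral
      noeth := hN.toIsLocallyNoetherian
      ft := inferInstance
      res := fun x hx v => (hl x hx).1.2 v
      par := fun x hx => (hl x hx).2 }

/-- **Theorem E.** If `X` satisfies the conditions at the closed points and condition (Y), all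
stability conditions on `X` are geometric. -/
theorem theoremE (f : X ⟶ Spec (.of ℂ)) [IsLocallyNoetherian X]
    (h : LocCond f) (hY : CondY X) (σ : StabilityCondition f) : σ.IsGeometric := by
  have := h.integral
  exact isGeometric_of_input (eInput_of_condY f h hY (diesStatement X) (fromSkyStatement X)) σ

/-- All stability conditions on a smooth projective surface with `H^1(X, 𝒪_X) ≠ 0` and without
rational curves are geometric. -/
theorem geometric_of_surface (f : X ⟶ Spec (.of ℂ)) [IsLocallyNoetherian X]
    (hf : IsSmoothProjectiveSurface f) (hq : IrregularSurface X) (hr : NoRationalCurve f)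
    (σ : StabilityCondition f) : σ.IsGeometric :=
  theoremE f (locCond_of_surface f hf) (Z.condY_of_surface f hf hq hr) σ

end M21

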