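import Pool.Agent.H.MP_21b43d_ag.Defs

/-!
# M21: the support property for the full numerical Grothendieck group (definition)
-/

set_option autoImplicit false

open CategoryTheory CategoryTheory.Limits CategoryTheory.Pretriangulated AlgebraicGeometry

noncomputable section

namespace M21

variable {X : Scheme.{0}}

/-- **The support property for the full numerical Grothendieck group** `N(X)`, the quotient of
`K_0(D^b(X))` by the classes `e` with `χ(G, e) = 0` for all `G`: for every `G` in `D^b(X)` there is
a constant `C` with `|χ(G, E)| ≤ C |Z(E)|` for all semistable objects `E`.  If `N(X)` is free of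
finite rank, finitely many of the linear forms `χ(G, ·)` are the coordinates of an injective map from
`N(X)` to some `ℤ^n`, so this says `‖E‖ ≤ C |Z(E)|` for every norm on `N(X) ⊗ ℝ`. -/
def StabilityCondition.FullSupport {f : X ⟶ Spec (.of ℂ)} [(dbCoh X).IsTriangulated]
    (σ : StabilityCondition f) : Prop :=
  ∀ G : DbCoh X, ∃ C : ℝ, ∀ (φ : ℝ) (E : DbCoh X), σ.P φ E →
    |(chi f G.obj E.obj : ℝ)| ≤ C * ‖σ.Z (σ.v E)‖

end M21
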