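import Pool.Agent.H.MP_21b43d_ag.Base

/-!
# M21: construction of sheaves of modules and of morphisms from sections
-/

open CategoryTheory CategoryTheory.Limits AlgebraicGeometry TopologicalSpace

noncomputable section

namespace M21

variable {X : Scheme.{0}}

/-- Data of a sheaf of modules given by sections. -/
structure SecData (X : Scheme.{0}) where
  /-- the sections -/
  S : X.Opens → Type
  grp : ∀ U, AddCommGroup (S U)
  mod : ∀ U, Module Γ(X, U) (S U)
  /-- the restriction -/
  r : ∀ {U V : X.Opens}, V ≤ U → S U → S V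
  r_self : ∀ (U : X.Opens) (h : U ≤ U) (s : S U), r h s = s
  r_r : ∀ {U V W : X.Opens} (h : V ≤ U) (h' : W ≤ V) (s : S U), r h' (r h s) = r (h'.trans h) s
  r_add : ∀ {U V : X.Opens} (h : V ≤ U) (s t : S U), r h (s + t) = r h s + r h t
  r_smul : ∀ {U V : X.Opens} (h : V ≤ U) (a : Γ(X, U)) (s : S U), r h (a • s) = resF h a • r h s
  loc : ∀ {U : X.Opens} (s t : S U),
    (∀ x ∈ U, ∃ (V : X.Opens) (h : V ≤ U), x ∈ V ∧ r h s = r h t) → s = t
  glue : ∀ {ι : Type} (U : ι → X.Opens) (W : X.Opens) (hU : ∀ i, U i ≤ W)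
    (_ : ∀ x ∈ W, ∃ i, x ∈ U i) (s : ∀ i, S (U i))
    (_ : ∀ i j, r (inf_le_left : U i ⊓ U j ≤ U i) (s i) = r inf_le_right (s j)),
    ∃ t : S W, ∀ i, r (hU i) t = s i

namespace SecData

variable (D : SecData X)

instance (U : X.Opens) : AddCommGroup (D.S U) := D.grp U
instance (U : X.Opens) : Module Γ(X, U) (D.S U) := D.mod U

/-- the underlying presheaf of abelian groups -/
def pre : TopCat.Presheaf Ab X where
  obj U := AddCommGrpCat.of (D.S U.unop)
  map {U V} f := AddCommGrpCat.ofHom (AddMonoidHom.mk' (D.r f.unop.le) (D.r_add f.unop.le))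
  map_id U := by
    ext s
    exact D.r_self _ _ s
  map_comp {U V W} f g := by
    ext s
    exact (D.r_r _ _ s).symm

/-- the module structure -/
instance (U : X.Opensᵒᵖ) : Module (X.ringCatSheaf.obj.obj U) (D.pre.obj U) :=
  inferInstanceAs (Module Γ(X, U.unop) (D.S U.unop))

/-- the presheaf of modules -/
def preMod : X.PresheafOfModules :=
  PresheafOfModules.ofPresheaf (R := X.ringCatSheaf.obj) D.pre
    (fun {_ _} f a s => D.r_smul f.unop.le a s)

theorem isSheaf : TopCat.Presheaf.IsSheaf D.pre := by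
  rw [TopCat.Presheaf.isSheaf_iff_isSheaf_comp (forget Ab)]
  apply TopCat.Presheaf.isSheaf_of_isSheafUniqueGluing_types
  intro ι U s hs
  have hW : ∀ x ∈ iSup U, ∃ i, x ∈ U i := fun x hx => by
    simpa using hx
  obtain ⟨t, ht⟩ := D.glue U (iSup U) (fun i => le_iSup U i) hW s (fun i j => hs i j)
  refine ⟨t, ht, ?_⟩
  intro t' ht'
  refine D.loc _ _ fun x hx => ?_
  obtain ⟨i, hi⟩ := hW x hx
  exact ⟨U i, le_iSup U i, hi, (ht' i).trans (ht i).symm⟩

/-- the sheaf of modules -/
def toMod : X.Modules := ⟨D.preMod, D.isSheaf⟩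

example (U : X.Opens) : (Γ(D.toMod, U) : Type) = D.S U := rfl
example (U V : X.Opens) (h : V ≤ U) (s : D.S U) : res D.toMod h s = D.r h s := rfl
example (U : X.Opens) (a : Γ(X, U)) (s : D.S U) : (a • (show Γ(D.toMod, U) from s)) = a • s := rfl

end SecData

end M21
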