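import Mathlib

/-!
# M21: slicings and stability data on a triangulated category (definitions)

* `HN P L E` : `E` has a Harder-Narasimhan filtration with nonzero factors of phases `L`
  (lowest phase first).
* `Slicing C` : a slicing in the sense of Bridgeland.
* `StabData C` : a slicing with a compatible central charge (as a function on objects) such that
  `|Z|` of nonzero semistable objects is bounded below (this is what the support property gives).
-/

open CategoryTheory CategoryTheory.Limits CategoryTheory.Pretriangulated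

universe v u

namespace M21

variable {C : Type u} [Category.{v} C] [HasZeroObject C] [HasShift C ℤ] [Preadditive C]
  [∀ n : ℤ, (shiftFunctor C n).Additive] [Pretriangulated C]

/-- `HN P L E`: the object `E` has a finite filtration `0 = E_0 → E_1 → … → E_n = E` whose
successive cones are nonzero objects `A_1, …, A_n` with `A_i ∈ P (φ_i)` and
`φ_1 > φ_2 > … > φ_n`; `L` is the list `[φ_n, …, φ_1]` (lowest phase first).  -/
inductive HN (P : ℝ → ObjectProperty C) : List ℝ → C → Prop
  | zero (E : C) (hE : IsZero E) : HN P [] E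
  | step (φ : ℝ) (L : List ℝ) (T : Triangle C) (hT : T ∈ distTriang C)
      (hF : HN P L T.obj₁) (hA : P φ T.obj₃) (hA0 : ¬ IsZero T.obj₃)
      (hφ : ∀ ψ ∈ L, φ < ψ) : HN P (φ :: L) T.obj₂

variable (C) in
/-- A slicing on the triangulated category `C` (Bridgeland, Definition 3.3): full additive
subcategories `P φ`, `φ : ℝ`, closed under isomorphisms, with `P (φ + 1) = P φ [1]`, no nonzero
maps from higher to lower phase, and Harder-Narasimhan filtrations for all objects. -/
structure Slicing where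
  /-- the semistable objects of phase `φ` -/
  P : ℝ → ObjectProperty C
  iso_mem : ∀ (φ : ℝ) {E F : C}, (E ≅ F) → P φ E → P φ F
  zero_mem : ∀ (φ : ℝ) (E : C), IsZero E → P φ E
  sum_mem : ∀ (φ : ℝ) (E F : C), P φ E → P φ F → P φ (E ⊞ F)
  shift_iff : ∀ (φ : ℝ) (E : C), P (φ + 1) (E⟦(1 : ℤ)⟧) ↔ P φ E
  hom_zero : ∀ (φ ψ : ℝ) (E F : C), ψ < φ → P φ E → P ψ F → ∀ f : E ⟶ F, f = 0
  hn : ∀ E : C, ∃ L : List ℝ, HN P L E

variable (C) in
/-- A slicing with a central charge `Z` (given on objects, additive on triangles), compatible with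
the phases, such that `|Z|` is bounded below on nonzero semistable objects. -/
structure StabData extends Slicing C where
  /-- the central charge -/
  Z : C → ℂ
  Z_add : ∀ T ∈ distTriang C, Z T.obj₂ = Z T.obj₁ + Z T.obj₃
  Z_phase : ∀ (φ : ℝ) (E : C), P φ E → ¬ IsZero E →
    ∃ m : ℝ, 0 < m ∧ Z E = (m : ℂ) * Complex.exp (Real.pi * φ * Complex.I)
  /-- the lower bound -/
  ε : ℝ
  ε_pos : 0 < ε
  ε_le : ∀ (φ : ℝ) (E : C), P φ E → ¬ IsZero E → ε ≤ ‖Z E‖

namespace Slicing

variable (σ : Slicing C)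

/-- all HN phases of `E` are `> φ` -/
def GT (φ : ℝ) (E : C) : Prop := ∃ L : List ℝ, HN σ.P L E ∧ ∀ ψ ∈ L, φ < ψ

/-- all HN phases of `E` are `≥ φ` -/
def GE (φ : ℝ) (E : C) : Prop := ∃ L : List ℝ, HN σ.P L E ∧ ∀ ψ ∈ L, φ ≤ ψ

/-- all HN phases of `E` are `< φ` -/
def LT (φ : ℝ) (E : C) : Prop := ∃ L : List ℝ, HN σ.P L E ∧ ∀ ψ ∈ L, ψ < φ

/-- all HN phases of `E` are `≤ φ` -/
def LE (φ : ℝ) (E : C) : Prop := ∃ L : List ℝ, HN σ.P L E ∧ ∀ ψ ∈ L, ψ ≤ φ

/-- `E` is stable of phase `φ`: a nonzero object of `P φ` without nontrivial short exact sequences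
in `P φ`, i.e. for every triangle `A → E → B → A[1]` with `A, B ∈ P φ` one has `A = 0` or
`B = 0`. -/
def Stable (φ : ℝ) (E : C) : Prop :=
  σ.P φ E ∧ ¬ IsZero E ∧ ∀ T ∈ distTriang C, T.obj₂ = E → σ.P φ T.obj₁ → σ.P φ T.obj₃ →
    IsZero T.obj₁ ∨ IsZero T.obj₃

end Slicing

end M21
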